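import Pool.Agent.Helper184.PH.Mult

/-!
Smooth cutoff functions as absolutely convergent Fourier integrals.
-/

open MeasureTheory Set Filter Metric FourierTransform
open scoped ENNReal NNReal Topology BoundedContinuousFunction

namespace Pool.Agent.Helper184.PH

variable {E : Type*} [NormedAddCommGroup E] [InnerProductSpace ℝ E] [FiniteDimensional ℝ E]
  [MeasurableSpace E] [BorelSpace E]

theorem schwartz_weight (k : SchwartzMap E ℂ) {τ : ℝ} :
    (∫⁻ z, ‖k z‖ₑ * ENNReal.ofReal ((1 + ‖z‖) ^ τ)) ≠ ∞ := by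
  obtain ⟨m, hm⟩ := exists_nat_ge τ
  have h1 : Integrable fun z : E => 2 ^ m * (‖k z‖ + ‖z‖ ^ m * ‖k z‖) :=
    ((k.integrable.norm).add (k.integrable_pow_mul volume m)).const_mul _
  refine ne_top_of_le_ne_top h1.2.ne (lintegral_mono fun z => ?_)
  have hz := norm_nonneg z
  have h2 : (1 + ‖z‖) ^ τ ≤ 2 ^ m * (1 + ‖z‖ ^ m) := by
    calc (1 + ‖z‖) ^ τ ≤ (1 + ‖z‖) ^ (m : ℝ) :=
          Real.rpow_le_rpow_of_exponent_le (by linarith) hm
      _ = (1 + ‖z‖) ^ m := Real.rpow_natCast _ _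
      _ ≤ (2 * max 1 ‖z‖) ^ m := by
          gcongr
          rcases le_total 1 ‖z‖ with h | h
          · rw [max_eq_right h]; linarith
          · rw [max_eq_left h]; linarith
      _ = 2 ^ m * (max 1 ‖z‖) ^ m := mul_pow _ _ _
      _ ≤ 2 ^ m * (1 + ‖z‖ ^ m) := by
          gcongr
          rcases le_total 1 ‖z‖ with h | h
          · rw [max_eq_right h]
            have : (0 : ℝ) ≤ 1 := by norm_num
            linarith
          · rw [max_eq_left h, one_pow]
            have := pow_nonneg hz m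
            linarith
  rw [← ofReal_norm, ← ofReal_norm, ← ENNReal.ofReal_mul (norm_nonneg _)]
  apply ENNReal.ofReal_le_ofReal
  rw [Real.norm_of_nonneg (by positivity)]
  calc ‖k z‖ * (1 + ‖z‖) ^ τ ≤ ‖k z‖ * (2 ^ m * (1 + ‖z‖ ^ m)) := by gcongr
    _ = 2 ^ m * (‖k z‖ + ‖z‖ ^ m * ‖k z‖) := by ring

/-- cutoff function near the point `w` -/
theorem bump (w : E) {r : ℝ} (hr : 0 < r) :
    ∃ h k : E → ℂ, Continuous h ∧ Continuous k ∧ Integrable k ∧
      (∀ τ : ℝ, (∫⁻ z, ‖k z‖ₑ * ENNReal.ofReal ((1 + ‖z‖) ^ τ)) ≠ ∞) ∧ (∀ x, ‖h x‖ ≤ 1) ∧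
      (∀ x ∈ closedBall w (r / 2), h x = 1) ∧ (∀ x, x ∉ ball w r → h x = 0) ∧
      ∀ x, h x = ∫ z, k z * Complex.exp ((2 * Real.pi * inner ℝ x z : ℝ) * Complex.I) := by
  let b : ContDiffBump w := ⟨r / 2, r, by positivity, by linarith⟩
  have hb1 : ContDiff ℝ (⊤ : ℕ∞) fun x => ((b x : ℝ) : ℂ) :=
    Complex.ofRealCLM.contDiff.comp b.contDiff
  have hb2 : HasCompactSupport fun x => ((b x : ℝ) : ℂ) :=
    b.hasCompactSupport.comp_left (g := fun t : ℝ => (t : ℂ)) Complex.ofReal_zero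
  let S : SchwartzMap E ℂ := hb2.toSchwartzMap hb1
  have hS : ∀ x, S x = ((b x : ℝ) : ℂ) := fun x => rfl
  obtain ⟨k, hk⟩ : ∃ k : SchwartzMap E ℂ, k = 𝓕 S := ⟨_, rfl⟩
  refine ⟨S, k, S.continuous, k.continuous, k.integrable, fun τ => schwartz_weight k,
    fun x => ?_, fun x hx => ?_, fun x hx => ?_, fun x => ?_⟩
  · rw [hS, Complex.norm_real, Real.norm_of_nonneg b.nonneg]; exact b.le_one
  · rw [hS, b.one_of_mem_closedBall hx]; simp
  · rw [hS, b.zero_of_le_dist (not_lt.1 fun h => hx (mem_ball.2 h))]; simp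
  · have h1 : (𝓕⁻ k : SchwartzMap E ℂ) = S := by
      rw [hk]; exact FourierTransform.fourierInv_fourier_eq S
    calc S x = (𝓕⁻ k : SchwartzMap E ℂ) x := by rw [h1]
      _ = 𝓕⁻ (k : E → ℂ) x := by rw [SchwartzMap.fourierInv_coe]
      _ = ∫ z, k z * Complex.exp ((2 * Real.pi * inner ℝ x z : ℝ) * Complex.I) := by
          rw [Real.fourierInv_eq']
          refine integral_congr_ae (Eventually.of_forall fun z => ?_)
          show Complex.exp ((2 * Real.pi * inner ℝ z x : ℝ) * Complex.I) • k z = _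
          rw [smul_eq_mul, mul_comm, real_inner_comm]

end Pool.Agent.Helper184.PH
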