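import Mathlib

/-!
Integral operators applied to unimodular functions with typical continuous phases.
-/

open MeasureTheory Set Filter Metric
open scoped ENNReal NNReal Topology BoundedContinuousFunction

namespace Pool.Agent.Helper184.PH

section defs

variable {X : Type*} [MeasurableSpace X] {V : Type*} [NormedAddCommGroup V] [MeasurableSpace V]

/-- the integral operator with kernel `K` -/
noncomputable def T (ν : Measure X) (K : X → V → ℂ) (f : X → ℂ) (y : V) : ℂ :=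
  ∫ x, f x * K x y ∂ν

/-- integral of the `q`-th power over the ball of radius `R` -/
noncomputable def J (μ : Measure V) (q : ℝ) (F : V → ℂ) (R : ℝ) : ℝ≥0∞ :=
  ∫⁻ y in closedBall (0 : V) R, ‖F y‖ₑ ^ q ∂μ

/-- growth at most `R ^ τ` -/
def Gd (μ : Measure V) (q τ : ℝ) (F : V → ℂ) : Prop :=
  ∃ C : ℝ≥0, ∀ R : ℝ, 1 ≤ R → J μ q F R ≤ C * ENNReal.ofReal (R ^ τ)

end defs

/-- the unimodular function with phase `φ` -/
noncomputable def ph {X : Type*} [TopologicalSpace X] (φ : X →ᵇ ℝ) (x : X) : ℂ :=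
  Complex.exp (φ x * Complex.I)

variable {X : Type*} [MetricSpace X] [SecondCountableTopology X] [MeasurableSpace X] [BorelSpace X]
variable {V : Type*} [NormedAddCommGroup V] [SecondCountableTopology V]
  [MeasurableSpace V] [BorelSpace V]
variable {ν : Measure X} [IsFiniteMeasure ν] {μ : Measure V} {K : X → V → ℂ}

theorem ph_norm (φ : X →ᵇ ℝ) (x : X) : ‖ph φ x‖ = 1 := Complex.norm_exp_ofReal_mul_I _

theorem ph_cont (φ : X →ᵇ ℝ) : Continuous (ph φ) := by unfold ph; fun_prop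

theorem ph_meas (φ : X →ᵇ ℝ) : Measurable (ph φ) := (ph_cont φ).measurable

theorem intK (hK : Continuous fun p : X × V => K p.1 p.2) (hK1 : ∀ x y, ‖K x y‖ ≤ 1)
    {f : X → ℂ} (hf : Measurable f) {M : ℝ} (hM : ∀ x, ‖f x‖ ≤ M) (y : V) :
    Integrable (fun x => f x * K x y) ν := by
  have h1 : Continuous fun x => K x y := hK.comp (by fun_prop : Continuous fun x : X => (x, y))
  refine Integrable.of_bound (hf.mul h1.measurable).aestronglyMeasurable (M * 1)
    (Eventually.of_forall fun x => ?_)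
  rw [norm_mul]
  exact mul_le_mul (hM x) (hK1 x y) (norm_nonneg _) ((norm_nonneg _).trans (hM x))

theorem T_comb (hK : Continuous fun p : X × V => K p.1 p.2) (hK1 : ∀ x y, ‖K x y‖ ≤ 1)
    {f g : X → ℂ} (hf : Measurable f) {M : ℝ} (hM : ∀ x, ‖f x‖ ≤ M)
    (hg : Measurable g) {M' : ℝ} (hM' : ∀ x, ‖g x‖ ≤ M') (a b : ℂ) (y : V) :
    T ν K (fun x => a * f x + b * g x) y = a * T ν K f y + b * T ν K g y := by
  unfold T
  rw [← integral_const_mul, ← integral_const_mul,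
    ← integral_add ((intK hK hK1 hf hM y).const_mul a) ((intK hK hK1 hg hM' y).const_mul b)]
  refine integral_congr_ae (Eventually.of_forall fun x => ?_)
  show (a * f x + b * g x) * K x y = a * (f x * K x y) + b * (g x * K x y)
  ring

theorem T_cont (hK : Continuous fun p : X × V => K p.1 p.2) (hK1 : ∀ x y, ‖K x y‖ ≤ 1)
    {f : X → ℂ} (hf : Measurable f) {M : ℝ} (hM : ∀ x, ‖f x‖ ≤ M) :
    Continuous (T ν K f) := by
  unfold T
  refine continuous_of_dominated (bound := fun _ => M)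
    (fun y => (intK hK hK1 hf hM y).aestronglyMeasurable) (fun y => Eventually.of_forall fun x => ?_)
    (integrable_const M) (Eventually.of_forall fun x => ?_)
  · rw [norm_mul]
    calc ‖f x‖ * ‖K x y‖ ≤ M * 1 :=
          mul_le_mul (hM x) (hK1 x y) (norm_nonneg _) ((norm_nonneg _).trans (hM x))
      _ = M := mul_one M
  · exact continuous_const.mul (hK.comp (by fun_prop : Continuous fun y : V => (x, y)))

theorem J_add {q : ℝ} (hq : 1 ≤ q) {F G H : V → ℂ} (hG : Measurable G)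
    (h : ∀ y, ‖H y‖ ≤ ‖F y‖ + ‖G y‖) (R : ℝ) :
    J μ q H R ≤ 2 ^ q * (J μ q F R + J μ q G R) := by
  unfold J
  have hGm : Measurable fun y => ‖G y‖ₑ ^ q := hG.enorm.pow_const q
  rw [← lintegral_add_right _ hGm]
  have h2 : (2 : ℝ≥0∞) ^ q ≠ ∞ := ENNReal.rpow_ne_top_of_nonneg (by linarith) (by norm_num)
  rw [← lintegral_const_mul' _ _ h2]
  refine lintegral_mono fun y => ?_
  have h1 : ‖H y‖ₑ ≤ ‖F y‖ₑ + ‖G y‖ₑ := by
    rw [← ofReal_norm_eq_enorm, ← ofReal_norm_eq_enorm, ← ofReal_norm_eq_enorm,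
      ← ENNReal.ofReal_add (norm_nonneg _) (norm_nonneg _)]
    exact ENNReal.ofReal_le_ofReal (h y)
  calc ‖H y‖ₑ ^ q ≤ (‖F y‖ₑ + ‖G y‖ₑ) ^ q := ENNReal.rpow_le_rpow h1 (by linarith)
    _ ≤ (2 : ℝ≥0∞) ^ (q - 1) * (‖F y‖ₑ ^ q + ‖G y‖ₑ ^ q) :=
        ENNReal.rpow_add_le_mul_rpow_add_rpow _ _ hq
    _ ≤ (2 : ℝ≥0∞) ^ q * (‖F y‖ₑ ^ q + ‖G y‖ₑ ^ q) := by
        gcongr
        · norm_num
        · linarith

theorem J_scale {q : ℝ} (hq : 0 ≤ q) {F H : V → ℂ} {c : ℝ} (hc : 0 ≤ c)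
    (h : ∀ y, ‖H y‖ ≤ c * ‖F y‖) (R : ℝ) :
    J μ q H R ≤ ENNReal.ofReal (c ^ q) * J μ q F R := by
  unfold J
  rw [← lintegral_const_mul' _ _ ENNReal.ofReal_ne_top]
  refine lintegral_mono fun y => ?_
  have h1 : ‖H y‖ₑ ≤ ENNReal.ofReal c * ‖F y‖ₑ := by
    rw [← ofReal_norm_eq_enorm, ← ofReal_norm_eq_enorm, ← ENNReal.ofReal_mul hc]
    exact ENNReal.ofReal_le_ofReal (h y)
  calc ‖H y‖ₑ ^ q ≤ (ENNReal.ofReal c * ‖F y‖ₑ) ^ q := ENNReal.rpow_le_rpow h1 hq
    _ = ENNReal.ofReal (c ^ q) * ‖F y‖ₑ ^ q := by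
        rw [ENNReal.mul_rpow_of_nonneg _ _ hq, ENNReal.ofReal_rpow_of_nonneg hc hq]

theorem ph_sub (φ ψ : X →ᵇ ℝ) (x : X) : ‖ph φ x - ph ψ x‖ ≤ dist φ ψ := by
  unfold ph
  have h1 : Complex.exp (φ x * Complex.I) - Complex.exp (ψ x * Complex.I) =
      Complex.exp (ψ x * Complex.I) * (Complex.exp (Complex.I * ((φ x - ψ x : ℝ) : ℂ)) - 1) := by
    rw [mul_sub, mul_one, ← Complex.exp_add]
    congr 2
    push_cast
    ring
  rw [h1, norm_mul, Complex.norm_exp_ofReal_mul_I, one_mul]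
  calc ‖Complex.exp (Complex.I * ((φ x - ψ x : ℝ) : ℂ)) - 1‖ ≤ ‖φ x - ψ x‖ :=
        Real.norm_exp_I_mul_ofReal_sub_one_le
    _ = dist (φ x) (ψ x) := (Real.dist_eq _ _).symm
    _ ≤ dist φ ψ := BoundedContinuousFunction.dist_coe_le_dist x

theorem T_sub_le (hK : Continuous fun p : X × V => K p.1 p.2) (hK1 : ∀ x y, ‖K x y‖ ≤ 1)
    {f g : X → ℂ} (hf : Measurable f) {M : ℝ} (hM : ∀ x, ‖f x‖ ≤ M)
    (hg : Measurable g) {M' : ℝ} (hM' : ∀ x, ‖g x‖ ≤ M') (y : V) :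
    ‖T ν K f y - T ν K g y‖ ≤ ∫ x, ‖f x - g x‖ ∂ν := by
  unfold T
  rw [← integral_sub (intK hK hK1 hf hM y) (intK hK hK1 hg hM' y)]
  refine (norm_integral_le_integral_norm _).trans ?_
  have hb : ∀ x, ‖f x - g x‖ ≤ M + M' := fun x =>
    (norm_sub_le _ _).trans (add_le_add (hM x) (hM' x))
  refine integral_mono_of_nonneg (Eventually.of_forall fun x => norm_nonneg _)
    (Integrable.of_bound (hf.sub hg).norm.aestronglyMeasurable (M + M')
      (Eventually.of_forall fun x => by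
        rw [Real.norm_of_nonneg (norm_nonneg _)]; exact hb x))
    (Eventually.of_forall fun x => ?_)
  show ‖f x * K x y - g x * K x y‖ ≤ ‖f x - g x‖
  rw [← sub_mul, norm_mul]
  calc ‖f x - g x‖ * ‖K x y‖ ≤ ‖f x - g x‖ * 1 := by gcongr; exact hK1 x y
    _ = _ := mul_one _

/-- Fatou -/
theorem J_le_of_tendsto {q : ℝ} (hq : 0 ≤ q) {F : ℕ → V → ℂ} {G : V → ℂ}
    (hF : ∀ j, Measurable (F j)) (h : ∀ y, Tendsto (fun j => F j y) atTop (𝓝 (G y)))
    {R : ℝ} {c : ℝ≥0∞} (hc : ∀ j, J μ q (F j) R ≤ c) : J μ q G R ≤ c := by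
  unfold J at *
  calc ∫⁻ y in closedBall (0 : V) R, ‖G y‖ₑ ^ q ∂μ
      = ∫⁻ y in closedBall (0 : V) R, liminf (fun j => ‖F j y‖ₑ ^ q) atTop ∂μ := by
        refine lintegral_congr fun y => ?_
        have h1 : Tendsto (fun j => ‖F j y‖ₑ ^ q) atTop (𝓝 (‖G y‖ₑ ^ q)) :=
          ((ENNReal.continuous_rpow_const (y := q)).tendsto _).comp
            ((continuous_enorm.tendsto _).comp (h y))
        exact h1.liminf_eq.symm
    _ ≤ liminf (fun j => ∫⁻ y in closedBall (0 : V) R, ‖F j y‖ₑ ^ q ∂μ) atTop :=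
        lintegral_liminf_le fun j => (hF j).enorm.pow_const q
    _ ≤ c := by
        refine liminf_le_of_le (by isBoundedDefault) fun b hb => ?_
        obtain ⟨j, hj⟩ := hb.exists
        exact hj.trans (hc j)

theorem hp_bound {h : X → ℂ} {M : ℝ} (hM : ∀ x, ‖h x‖ ≤ M) (φ : X →ᵇ ℝ) (x : X) :
    ‖h x * ph φ x‖ ≤ M := by
  rw [norm_mul, ph_norm, mul_one]; exact hM x

theorem closed_set (hK : Continuous fun p : X × V => K p.1 p.2) (hK1 : ∀ x y, ‖K x y‖ ≤ 1)
    {h : X → ℂ} (hh : Measurable h) {M : ℝ} (hM : ∀ x, ‖h x‖ ≤ M) {q : ℝ} (hq : 0 ≤ q) (R : ℝ)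
    (c : ℝ≥0∞) :
    IsClosed {φ : X →ᵇ ℝ | J μ q (T ν K fun x => h x * ph φ x) R ≤ c} := by
  apply IsSeqClosed.isClosed
  intro u φ hu hlim
  simp only [mem_setOf_eq] at hu ⊢
  refine J_le_of_tendsto hq (F := fun j => T ν K fun x => h x * ph (u j) x)
    (fun j => (T_cont hK hK1 (hh.mul (ph_meas _)) (hp_bound hM _)).measurable) (fun y => ?_) hu
  rw [tendsto_iff_norm_sub_tendsto_zero]
  have h1 : Tendsto (fun j => M * dist (u j) φ * ν.real univ) atTop (𝓝 0) := by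
    have h2 := (tendsto_iff_dist_tendsto_zero.1 hlim).const_mul M
    have h3 := h2.mul_const (ν.real univ)
    simpa using h3
  refine squeeze_zero (fun j => norm_nonneg _) (fun j => ?_) h1
  refine (T_sub_le hK hK1 (hh.mul (ph_meas _)) (hp_bound hM _) (hh.mul (ph_meas _))
    (hp_bound hM _) y).trans ?_
  have hb : ∀ x, ‖h x * ph (u j) x - h x * ph φ x‖ ≤ M * dist (u j) φ := fun x => by
    rw [← mul_sub, norm_mul]
    exact mul_le_mul (hM x) (ph_sub _ _ x) (norm_nonneg _) ((norm_nonneg _).trans (hM x))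
  calc ∫ x, ‖h x * ph (u j) x - h x * ph φ x‖ ∂ν ≤ ∫ _x, M * dist (u j) φ ∂ν := by
        refine integral_mono_of_nonneg (Eventually.of_forall fun x => norm_nonneg _)
          (integrable_const _) (Eventually.of_forall hb)
    _ = M * dist (u j) φ * ν.real univ := by
        rw [integral_const, smul_eq_mul, mul_comm]

end Pool.Agent.Helper184.PH
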