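import Pool.Agent.Helper184.PH.Glob

/-!
The extension operator of the paraboloid in `ℝ³` on an arbitrary measurable set.
-/

open MeasureTheory Set Filter Metric
open scoped ENNReal NNReal Topology BoundedContinuousFunction

namespace Pool.Agent.Helper184.PH.P3

/-- Euclidean space `ℝ^n` -/
abbrev E (n : ℕ) := EuclideanSpace ℝ (Fin n)

/-- the paraboloid -/
noncomputable def Phi (x : E 2) : E 3 := !₂[x 0, x 1, x 0 ^ 2 + x 1 ^ 2]

theorem inner_Phi (x : E 2) (ξ : E 3) :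
    (inner ℝ (Phi x) ξ : ℝ) = x 0 * ξ 0 + x 1 * ξ 1 + (x 0 ^ 2 + x 1 ^ 2) * ξ 2 := by
  simp [Phi, PiLp.inner_apply, Fin.sum_univ_three]
  ring

/-- the kernel -/
noncomputable def K3 (x : E 2) (ξ : E 3) : ℂ :=
  Complex.exp (-(inner ℝ (Phi x) ξ : ℝ) * Complex.I)

theorem K3_cont : Continuous fun p : E 2 × E 3 => K3 p.1 p.2 := by
  unfold K3
  simp only [inner_Phi]
  fun_prop

theorem K3_norm_eq (x : E 2) (ξ : E 3) : ‖K3 x ξ‖ = 1 := by
  unfold K3
  rw [← Complex.ofReal_neg, Complex.norm_exp_ofReal_mul_I]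

theorem K3_norm (x : E 2) (ξ : E 3) : ‖K3 x ξ‖ ≤ 1 := (K3_norm_eq x ξ).le

/-- the extension operator -/
noncomputable def ext (U : Set (E 2)) (f : E 2 → ℂ) (ξ : E 3) : ℂ :=
  ∫ x in U, f x * Complex.exp (-(inner ℝ (Phi x) ξ : ℝ) * Complex.I)

/-- the linear map of the parabolic rescaling -/
noncomputable def L3 (u : E 2) (l : ℝ) (hl : l ≠ 0) : E 3 ≃ₗ[ℝ] E 3 where
  toFun ξ := !₂[l * (ξ 0 + 2 * ξ 2 * u 0), l * (ξ 1 + 2 * ξ 2 * u 1), l ^ 2 * ξ 2]
  invFun ξ := !₂[l⁻¹ * ξ 0 - 2 * (l⁻¹ ^ 2 * ξ 2) * u 0, l⁻¹ * ξ 1 - 2 * (l⁻¹ ^ 2 * ξ 2) * u 1,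
    l⁻¹ ^ 2 * ξ 2]
  map_add' v w := by
    ext i
    fin_cases i <;> simp <;> ring
  map_smul' c v := by
    ext i
    fin_cases i <;> simp <;> ring
  left_inv v := by
    ext i
    fin_cases i <;> simp <;> field_simp <;> ring
  right_inv v := by
    ext i
    fin_cases i <;> simp <;> field_simp

theorem K3_galilei (u η : E 2) (l : ℝ) (hl : l ≠ 0) (ξ : E 3) :
    K3 (u + l • η) ξ = K3 u ξ * K3 η (L3 u l hl ξ) := by
  unfold K3
  rw [← Complex.exp_add]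
  congr 1
  have e0 : (L3 u l hl ξ) 0 = l * (ξ 0 + 2 * ξ 2 * u 0) := rfl
  have e1 : (L3 u l hl ξ) 1 = l * (ξ 1 + 2 * ξ 2 * u 1) := rfl
  have e2 : (L3 u l hl ξ) 2 = l ^ 2 * ξ 2 := rfl
  have e3 : inner ℝ (Phi (u + l • η)) ξ =
      inner ℝ (Phi u) ξ + inner ℝ (Phi η) (L3 u l hl ξ) := by
    rw [inner_Phi, inner_Phi, inner_Phi, e0, e1, e2]
    simp only [PiLp.add_apply, PiLp.smul_apply, smul_eq_mul]
    ring
  rw [e3]
  push_cast
  ring

/-- the rescaled function -/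
noncomputable def resc (U : Set (E 2)) (u : E 2) (l : ℝ) (f : E 2 → ℂ) : E 2 → ℂ :=
  {x | l⁻¹ • (x - u) ∈ U}.indicator fun x => f (l⁻¹ • (x - u))

theorem resc_meas {U : Set (E 2)} (hU : MeasurableSet U) (u : E 2) (l : ℝ) {f : E 2 → ℂ}
    (hf : Measurable f) : Measurable (resc U u l f) := by
  unfold resc
  have h1 : Continuous fun ξ : E 2 => l⁻¹ • (ξ - u) := by fun_prop
  exact (hf.comp h1.measurable).indicator (h1.measurable hU)

theorem ext_resc {U O : Set (E 2)} (hU : MeasurableSet U) (hO : MeasurableSet O) {u : E 2}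
    {l : ℝ} (hl : 0 < l) (hsub : ∀ x : E 2, l⁻¹ • (x - u) ∈ U → x ∈ O) (f : E 2 → ℂ) (ξ : E 3) :
    ext O (resc U u l f) ξ =
      K3 u ξ * ((l ^ 2 : ℝ) : ℂ) * ext U f (L3 u l hl.ne' ξ) := by
  unfold ext
  set G : E 2 → ℂ := U.indicator fun η => f η * K3 η (L3 u l hl.ne' ξ) with hG
  have h1 : ∫ x in O, resc U u l f x * Complex.exp (-(inner ℝ (Phi x) ξ : ℝ) * Complex.I) =
      ∫ x, K3 u ξ * G (l⁻¹ • (x - u)) := by
    rw [← integral_indicator hO]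
    refine integral_congr_ae (Eventually.of_forall fun x => ?_)
    show O.indicator (fun x => resc U u l f x * K3 x ξ) x = K3 u ξ * G (l⁻¹ • (x - u))
    by_cases hx : l⁻¹ • (x - u) ∈ U
    · rw [indicator_of_mem (hsub x hx), hG, indicator_of_mem hx]
      have e1 : resc U u l f x = f (l⁻¹ • (x - u)) := by
        unfold resc; rw [indicator_of_mem]; exact hx
      have e2 : u + l • (l⁻¹ • (x - u)) = x := by
        rw [smul_smul, mul_inv_cancel₀ hl.ne', one_smul]; abel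
      have e3 := K3_galilei u (l⁻¹ • (x - u)) l hl.ne' ξ
      rw [e2] at e3
      rw [e1, e3]; ring
    · rw [hG, indicator_of_notMem hx, mul_zero]
      have e1 : resc U u l f x = 0 := by
        unfold resc; rw [indicator_of_notMem]; exact hx
      by_cases hc : x ∈ O
      · rw [indicator_of_mem hc, e1, zero_mul]
      · rw [indicator_of_notMem hc]
  rw [h1, integral_const_mul, integral_sub_right_eq_self (fun x => G (l⁻¹ • x)) u,
    Measure.integral_comp_inv_smul]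
  have h2 : ∫ x, G x = ∫ x in U, f x * K3 x (L3 u l hl.ne' ξ) := integral_indicator hU
  rw [h2]
  simp only [finrank_euclideanSpace, Fintype.card_fin]
  rw [abs_of_pos (pow_pos hl 2), Complex.real_smul]
  show K3 u ξ * (((l ^ 2 : ℝ) : ℂ) * ∫ x in U, f x * K3 x (L3 u l hl.ne' ξ)) = _
  rw [mul_assoc]
  rfl

theorem norm_resc {U O : Set (E 2)} (hU : MeasurableSet U) {q : ℝ} (hq : 0 < q) {u : E 2}
    {l : ℝ} (hl : 0 < l) {f : E 2 → ℂ} (hf : Measurable f) :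
    (∫⁻ x in O, ‖resc U u l f x‖ₑ ^ q) ≤ ENNReal.ofReal (l ^ 2) * ∫⁻ x in U, ‖f x‖ₑ ^ q := by
  set G : E 2 → ℝ≥0∞ := U.indicator fun η => ‖f η‖ₑ ^ q with hG
  have hGm : Measurable G := (hf.enorm.pow_const q).indicator hU
  have h1 : (∫⁻ x in O, ‖resc U u l f x‖ₑ ^ q) ≤ ∫⁻ x, G (l⁻¹ • (x - u)) := by
    refine (setLIntegral_le_lintegral _ _).trans (lintegral_mono fun x => ?_)
    by_cases hx : l⁻¹ • (x - u) ∈ U
    · rw [hG, indicator_of_mem hx]
      have e1 : resc U u l f x = f (l⁻¹ • (x - u)) := by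
        unfold resc; rw [indicator_of_mem]; exact hx
      rw [e1]
    · have e1 : resc U u l f x = 0 := by
        unfold resc; rw [indicator_of_notMem]; exact hx
      rw [e1]; simp [hq]
  have h2 : ∫⁻ x, G (l⁻¹ • (x - u)) = ∫⁻ x, G (l⁻¹ • x) :=
    lintegral_sub_right_eq_self (fun x => G (l⁻¹ • x)) u
  have h3 : ∫⁻ x, G (l⁻¹ • x) = ENNReal.ofReal (l ^ 2) * ∫⁻ x, G x := by
    have h4 := lintegral_map (μ := (volume : Measure (E 2))) hGm (measurable_const_smul l⁻¹)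
    rw [Measure.map_addHaar_smul volume (inv_ne_zero hl.ne'), lintegral_smul_measure] at h4
    simp only [finrank_euclideanSpace, Fintype.card_fin] at h4
    rw [← h4, smul_eq_mul]
    congr 2
    rw [inv_pow, inv_inv, abs_of_pos (pow_pos hl 2)]
  have h5 : ∫⁻ x, G x = ∫⁻ x in U, ‖f x‖ₑ ^ q := lintegral_indicator hU _
  rw [h2, h3, h5] at h1
  exact h1

/-- the extension estimate -/
def Est (U : Set (E 2)) (q : ℝ) : Prop :=
  ∃ C : ℝ≥0, ∀ f : E 2 → ℂ, Measurable f → (∫⁻ x in U, ‖f x‖ₑ ^ q) ≠ ∞ →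
    (∫⁻ ξ, ‖ext U f ξ‖ₑ ^ q) ≤ C * ∫⁻ x in U, ‖f x‖ₑ ^ q

/-- parabolic rescaling: from an open set to a bounded set -/
theorem Est_of_open {U O : Set (E 2)} (hU : MeasurableSet U) (hUb : U ⊆ ball 0 (1 / 2))
    (hO : IsOpen O) (hne : O.Nonempty) {q : ℝ} (hq : 0 < q) (h : Est O q) : Est U q := by
  obtain ⟨C, hC⟩ := h
  obtain ⟨u, hu⟩ := hne
  obtain ⟨l, hl, hball⟩ := Metric.isOpen_iff.1 hO u hu
  have hsub : ∀ x : E 2, l⁻¹ • (x - u) ∈ U → x ∈ O := fun x hx => by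
    apply hball
    have h1 := hUb hx
    rw [mem_ball_zero_iff, norm_smul, norm_inv, Real.norm_of_nonneg hl.le,
      inv_mul_lt_iff₀ hl] at h1
    rw [mem_ball, dist_eq_norm]
    linarith
  set L := L3 u l hl.ne' with hL
  have hdet : LinearMap.det (L : E 3 →ₗ[ℝ] E 3) ≠ 0 := (LinearEquiv.isUnit_det' L).ne_zero
  set c : ℝ≥0∞ := ENNReal.ofReal |(LinearMap.det (L : E 3 →ₗ[ℝ] E 3))⁻¹| with hc
  have hc0 : c ≠ 0 := by
    rw [hc]; simpa using hdet
  have hct : c ≠ ∞ := ENNReal.ofReal_ne_top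
  have hmap : Measure.map (L : E 3 →ₗ[ℝ] E 3) (volume : Measure (E 3)) =
      c • (volume : Measure (E 3)) := Measure.map_linearMap_addHaar_eq_smul_addHaar _ hdet
  have hLm : Measurable (L : E 3 →ₗ[ℝ] E 3) :=
    (LinearMap.continuous_of_finiteDimensional _).measurable
  have hln : 0 < l ^ 2 := pow_pos hl 2
  set D : ℝ≥0∞ := c⁻¹ * (ENNReal.ofReal (((l ^ 2)⁻¹) ^ q) * (C * ENNReal.ofReal (l ^ 2))) with hD
  have hDt : D ≠ ∞ := ENNReal.mul_ne_top (ENNReal.inv_ne_top.2 hc0)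
    (ENNReal.mul_ne_top ENNReal.ofReal_ne_top
      (ENNReal.mul_ne_top ENNReal.coe_ne_top ENNReal.ofReal_ne_top))
  refine ⟨D.toNNReal, fun f hf hfin => ?_⟩
  rw [ENNReal.coe_toNNReal hDt]
  have hN := norm_resc (O := O) hU hq hl hf (u := u)
  have hfin' : (∫⁻ x in O, ‖resc U u l f x‖ₑ ^ q) ≠ ∞ :=
    ne_top_of_le_ne_top (ENNReal.mul_ne_top ENNReal.ofReal_ne_top hfin) hN
  have h1 := hC _ (resc_meas hU u l hf) hfin'
  have hEm : Measurable fun ξ => ext U f ξ := by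
    unfold ext
    have : StronglyMeasurable fun p : E 3 × E 2 =>
        f p.2 * Complex.exp (-(inner ℝ (Phi p.2) p.1 : ℝ) * Complex.I) := by
      refine ((hf.comp measurable_snd).mul ?_).stronglyMeasurable
      exact (K3_cont.comp (continuous_snd.prodMk continuous_fst)).measurable
    exact (this.integral_prod_right (ν := volume.restrict U)).measurable
  have h2 := lintegral_map (μ := (volume : Measure (E 3))) (hEm.enorm.pow_const q) hLm
  rw [hmap, lintegral_smul_measure] at h2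
  have h3 : (∫⁻ ξ, ‖ext U f (L ξ)‖ₑ ^ q) =
      ENNReal.ofReal (((l ^ 2)⁻¹) ^ q) * ∫⁻ ξ, ‖ext O (resc U u l f) ξ‖ₑ ^ q := by
    rw [← lintegral_const_mul' _ _ ENNReal.ofReal_ne_top]
    refine lintegral_congr fun ξ => ?_
    rw [← ENNReal.ofReal_rpow_of_nonneg (inv_nonneg.2 hln.le) hq.le,
      ← ENNReal.mul_rpow_of_nonneg _ _ hq.le]
    congr 1
    have e1 := ext_resc hU hO.measurableSet hl hsub f ξ
    rw [e1, enorm_mul, enorm_mul, ← ofReal_norm (K3 u ξ), K3_norm_eq, ENNReal.ofReal_one, one_mul,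
      ← ofReal_norm ((l ^ 2 : ℝ) : ℂ), Complex.norm_real, Real.norm_of_nonneg hln.le, ← mul_assoc,
      ← ENNReal.ofReal_mul (inv_nonneg.2 hln.le), inv_mul_cancel₀ hln.ne', ENNReal.ofReal_one,
      one_mul]
  calc (∫⁻ ξ, ‖ext U f ξ‖ₑ ^ q) = c⁻¹ * (c • ∫⁻ ξ, ‖ext U f ξ‖ₑ ^ q) := by
        rw [smul_eq_mul, ← mul_assoc, ENNReal.inv_mul_cancel hc0 hct, one_mul]
    _ = c⁻¹ * (ENNReal.ofReal (((l ^ 2)⁻¹) ^ q) * ∫⁻ ξ, ‖ext O (resc U u l f) ξ‖ₑ ^ q) := by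
        rw [h2]
        congr 1
    _ ≤ c⁻¹ * (ENNReal.ofReal (((l ^ 2)⁻¹) ^ q) *
          (C * (ENNReal.ofReal (l ^ 2) * ∫⁻ x in U, ‖f x‖ₑ ^ q))) := by
        gcongr
        exact h1.trans (by gcongr)
    _ = D * ∫⁻ x in U, ‖f x‖ₑ ^ q := by rw [hD]; ring

end Pool.Agent.Helper184.PH.P3
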