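import Pool.Agent.Helper184.PH.Bump

/-!
Global versions (no loss) of the category argument and of the multiplier lemma.
-/

open MeasureTheory Set Filter Metric
open scoped ENNReal NNReal Topology BoundedContinuousFunction

namespace Pool.Agent.Helper184.PH

variable {X : Type*} [MetricSpace X] [SecondCountableTopology X] [MeasurableSpace X] [BorelSpace X]
variable {V : Type*} [NormedAddCommGroup V] [SecondCountableTopology V]
  [MeasurableSpace V] [BorelSpace V]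
variable {ν : Measure X} [IsFiniteMeasure ν] {μ : Measure V} {K : X → V → ℂ}
variable {Z : Type*} [NormedAddCommGroup Z] [SecondCountableTopology Z] [MeasurableSpace Z]
  [BorelSpace Z] {ρ : Measure Z}

theorem glob_of_J {F : V → ℂ} (hF : Measurable F) {q : ℝ} {C : ℝ≥0∞}
    (h : ∀ R : ℝ, 1 ≤ R → J μ q F R ≤ C) : (∫⁻ x, ‖F x‖ₑ ^ q ∂μ) ≤ C := by
  have h1 := (aecover_closedBall (μ := μ) (x := (0 : V))
    (tendsto_id (α := ℝ) (x := atTop))).lintegral_tendsto_of_countably_generated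
    (hF.enorm.pow_const q).aemeasurable
  exact le_of_tendsto h1 (by
    filter_upwards [eventually_ge_atTop (1 : ℝ)] with R hR using h R hR)

theorem main0 (hK : Continuous fun p : X × V => K p.1 p.2) (hK1 : ∀ x y, ‖K x y‖ ≤ 1)
    {h : X → ℂ} (hh : Measurable h) {M : ℝ} (hM : ∀ x, ‖h x‖ ≤ M) {q : ℝ} (hq : 1 ≤ q)
    (hnm : ¬ IsMeagre {φ : X →ᵇ ℝ | (∫⁻ y, ‖T ν K (fun x => h x * ph φ x) y‖ₑ ^ q ∂μ) < ∞}) :
    ∃ C : ℝ≥0, ∀ f : X → ℂ, Measurable f → (∀ x, ‖f x‖ ≤ 1) →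
      (∫⁻ y, ‖T ν K (fun x => h x * f x) y‖ₑ ^ q ∂μ) ≤ C := by
  have hnm' : ¬ IsMeagre {φ : X →ᵇ ℝ | Gd μ q 0 (T ν K fun x => h x * ph φ x)} := fun hm => by
    refine hnm (hm.mono fun φ hφ => ?_)
    have hφ' : (∫⁻ y, ‖T ν K (fun x => h x * ph φ x) y‖ₑ ^ q ∂μ) < ∞ := hφ
    refine ⟨(∫⁻ y, ‖T ν K (fun x => h x * ph φ x) y‖ₑ ^ q ∂μ).toNNReal, fun R _ => ?_⟩
    rw [Real.rpow_zero, ENNReal.ofReal_one, mul_one, ENNReal.coe_toNNReal hφ'.ne]
    exact setLIntegral_le_lintegral _ _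
  obtain ⟨C, hC⟩ := main hK hK1 hh hM hq hnm'
  refine ⟨C, fun f hf hf1 => ?_⟩
  have hb : ∀ x, ‖h x * f x‖ ≤ M := fun x => by
    rw [norm_mul]
    calc ‖h x‖ * ‖f x‖ ≤ M * 1 :=
          mul_le_mul (hM x) (hf1 x) (norm_nonneg _) ((norm_nonneg _).trans (hM x))
      _ = M := mul_one M
  refine glob_of_J (T_cont hK hK1 (hh.mul hf) hb).measurable fun R hR => ?_
  have := hC f hf hf1 R hR
  rwa [Real.rpow_zero, ENNReal.ofReal_one, mul_one] at this

theorem mult0 [μ.IsAddRightInvariant] [SFinite μ] [SFinite ρ]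
    (hK : Continuous fun p : X × V => K p.1 p.2) (hK1 : ∀ x y, ‖K x y‖ ≤ 1)
    (ι : Z → V) (hι : Continuous ι)
    (hKι : ∀ x y z, K x (y + ι z) = K x y * K x (ι z))
    {k : Z → ℂ} (hk : Continuous k) (hki : Integrable k ρ) {q : ℝ} (hq : 1 ≤ q)
    {h : X → ℂ} (hrep : ∀ x, h x = ∫ z, k z * K x (ι z) ∂ρ)
    {f : X → ℂ} (hf : Measurable f) (hf1 : ∀ x, ‖f x‖ ≤ 1)
    (hgd : (∫⁻ y, ‖T ν K f y‖ₑ ^ q ∂μ) < ∞) :
    (∫⁻ y, ‖T ν K (fun x => h x * f x) y‖ₑ ^ q ∂μ) < ∞ := by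
  have hq0 : 0 ≤ q := by linarith
  set A : ℝ≥0∞ := ∫⁻ z, ‖k z‖ₑ ∂ρ with hA
  have hAt : A ≠ ∞ := hki.2.ne
  have hTc : Continuous (T ν K f) := T_cont hK hK1 hf hf1
  have hkm : Measurable fun z => ‖k z‖ₑ := hk.measurable.enorm
  have hTrep : ∀ y, T ν K (fun x => h x * f x) y = ∫ z, k z * T ν K f (y + ι z) ∂ρ := fun y => by
    have e1 : T ν K (fun x => h x * f x) y =
        ∫ x, ∫ z, k z * (f x * K x (y + ι z)) ∂ρ ∂ν := by
      unfold T
      refine integral_congr_ae (Eventually.of_forall fun x => ?_)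
      show h x * f x * K x y = ∫ z, k z * (f x * K x (y + ι z)) ∂ρ
      rw [hrep x, mul_assoc, ← integral_mul_const]
      refine integral_congr_ae (Eventually.of_forall fun z => ?_)
      show k z * K x (ι z) * (f x * K x y) = k z * (f x * K x (y + ι z))
      rw [hKι]; ring
    rw [e1, integral_integral_swap]
    · refine integral_congr_ae (Eventually.of_forall fun z => ?_)
      show ∫ x, k z * (f x * K x (y + ι z)) ∂ν = k z * T ν K f (y + ι z)
      rw [integral_const_mul]; rfl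
    · refine Integrable.mono' (g := fun p : X × Z => ‖k p.2‖) (hki.norm.comp_snd ν) ?_ ?_
      · have hc : Continuous fun p : X × Z => K p.1 (y + ι p.2) :=
          hK.comp (by fun_prop : Continuous fun p : X × Z => (p.1, y + ι p.2))
        exact ((hk.comp continuous_snd).measurable.mul
          ((hf.comp measurable_fst).mul hc.measurable)).aestronglyMeasurable
      · refine Eventually.of_forall fun p => ?_
        show ‖k p.2 * (f p.1 * K p.1 (y + ι p.2))‖ ≤ ‖k p.2‖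
        rw [norm_mul, norm_mul]
        calc ‖k p.2‖ * (‖f p.1‖ * ‖K p.1 (y + ι p.2)‖) ≤ ‖k p.2‖ * (1 * 1) := by
              gcongr
              · exact hf1 _
              · exact hK1 _ _
          _ = ‖k p.2‖ := by ring
  have hpt : ∀ y, ‖T ν K (fun x => h x * f x) y‖ₑ ^ q ≤
      (∫⁻ z, ‖k z‖ₑ * ‖T ν K f (y + ι z)‖ₑ ^ q ∂ρ) * A ^ (q - 1) := fun y => by
    have hm : Measurable fun z => T ν K f (y + ι z) :=
      (hTc.comp (by fun_prop : Continuous fun z => y + ι z)).measurable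
    have h1 : ‖T ν K (fun x => h x * f x) y‖ₑ ≤ ∫⁻ z, ‖k z‖ₑ * ‖T ν K f (y + ι z)‖ₑ ∂ρ := by
      rw [hTrep y]
      refine (enorm_integral_le_lintegral_enorm _).trans_eq ?_
      refine lintegral_congr fun z => ?_
      rw [enorm_mul]
    have h2 := jensen (ρ.withDensity fun z => ‖k z‖ₑ) hq _ hm
    rw [lintegral_withDensity_eq_lintegral_mul _ hkm hm.enorm,
      lintegral_withDensity_eq_lintegral_mul _ hkm (hm.enorm.pow_const q),
      withDensity_apply _ MeasurableSet.univ, setLIntegral_univ] at h2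
    exact (ENNReal.rpow_le_rpow h1 hq0).trans h2
  have hmeas : Measurable fun p : V × Z => ‖k p.2‖ₑ * ‖T ν K f (p.1 + ι p.2)‖ₑ ^ q := by
    have h3 : Continuous fun p : V × Z => T ν K f (p.1 + ι p.2) :=
      hTc.comp (by fun_prop : Continuous fun p : V × Z => p.1 + ι p.2)
    exact ((hk.comp continuous_snd).measurable.enorm).mul (h3.measurable.enorm.pow_const q)
  set B : ℝ≥0∞ := ∫⁻ y, ‖T ν K f y‖ₑ ^ q ∂μ with hB
  have hle : (∫⁻ y, ‖T ν K (fun x => h x * f x) y‖ₑ ^ q ∂μ) ≤ (A * B) * A ^ (q - 1) := by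
    calc (∫⁻ y, ‖T ν K (fun x => h x * f x) y‖ₑ ^ q ∂μ)
        ≤ ∫⁻ y, (∫⁻ z, ‖k z‖ₑ * ‖T ν K f (y + ι z)‖ₑ ^ q ∂ρ) * A ^ (q - 1) ∂μ :=
          lintegral_mono fun y => hpt y
      _ = (∫⁻ y, ∫⁻ z, ‖k z‖ₑ * ‖T ν K f (y + ι z)‖ₑ ^ q ∂ρ ∂μ) * A ^ (q - 1) :=
          lintegral_mul_const' _ _ (ENNReal.rpow_ne_top_of_nonneg (by linarith) hAt)
      _ = (∫⁻ z, ∫⁻ y, ‖k z‖ₑ * ‖T ν K f (y + ι z)‖ₑ ^ q ∂μ ∂ρ) * A ^ (q - 1) := by
          rw [lintegral_lintegral_swap hmeas.aemeasurable]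
      _ = (∫⁻ z, ‖k z‖ₑ * B ∂ρ) * A ^ (q - 1) := by
          congr 1
          refine lintegral_congr fun z => ?_
          rw [lintegral_const_mul' _ _ enorm_ne_top,
            lintegral_add_right_eq_self (fun y => ‖T ν K f y‖ₑ ^ q) (ι z)]
      _ = (A * B) * A ^ (q - 1) := by
          rw [lintegral_mul_const' _ _ hgd.ne]
  exact hle.trans_lt (ENNReal.mul_lt_top (ENNReal.mul_lt_top hAt.lt_top hgd)
    (ENNReal.rpow_lt_top_of_nonneg (by linarith) hAt))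

end Pool.Agent.Helper184.PH
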