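import Pool.Agent.Helper184.PH.Core

/-!
If the functions with typical phases are good then all bounded functions are good.
-/

open MeasureTheory Set Filter Metric
open scoped ENNReal NNReal Topology BoundedContinuousFunction

namespace Pool.Agent.Helper184.PH

variable {X : Type*} [MetricSpace X] [SecondCountableTopology X] [MeasurableSpace X] [BorelSpace X]
variable {V : Type*} [NormedAddCommGroup V] [SecondCountableTopology V]
  [MeasurableSpace V] [BorelSpace V]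
variable {ν : Measure X} [IsFiniteMeasure ν] {μ : Measure V} {K : X → V → ℂ}

/-- some ball of phases is uniformly good -/
theorem baire (hK : Continuous fun p : X × V => K p.1 p.2) (hK1 : ∀ x y, ‖K x y‖ ≤ 1)
    {h : X → ℂ} (hh : Measurable h) {M : ℝ} (hM : ∀ x, ‖h x‖ ≤ M) {q τ : ℝ} (hq : 0 ≤ q)
    (hnm : ¬ IsMeagre {φ : X →ᵇ ℝ | Gd μ q τ (T ν K fun x => h x * ph φ x)}) :
    ∃ (N : ℕ) (φ₀ : X →ᵇ ℝ) (r : ℝ), 0 < r ∧ ∀ φ : X →ᵇ ℝ, dist φ φ₀ < r → ∀ R : ℝ, 1 ≤ R →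
      J μ q (T ν K fun x => h x * ph φ x) R ≤ N * ENNReal.ofReal (R ^ τ) := by
  set A : ℕ → Set (X →ᵇ ℝ) := fun N => {φ | ∀ R : ℝ, 1 ≤ R →
    J μ q (T ν K fun x => h x * ph φ x) R ≤ N * ENNReal.ofReal (R ^ τ)} with hA
  have hcl : ∀ N, IsClosed (A N) := fun N => by
    have : A N = ⋂ R : ℝ, ⋂ _ : 1 ≤ R, {φ | J μ q (T ν K fun x => h x * ph φ x) R ≤
        N * ENNReal.ofReal (R ^ τ)} := by
      ext φ; simp [hA]
    rw [this]
    exact isClosed_iInter fun R => isClosed_iInter fun _ => closed_set hK hK1 hh hM hq R _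
  have hsub : {φ : X →ᵇ ℝ | Gd μ q τ (T ν K fun x => h x * ph φ x)} ⊆ ⋃ N, A N := by
    rintro φ ⟨C, hC⟩
    obtain ⟨N, hN⟩ := exists_nat_ge C
    refine mem_iUnion.2 ⟨N, fun R hR => (hC R hR).trans ?_⟩
    have : (C : ℝ≥0∞) ≤ (N : ℝ≥0∞) := by exact_mod_cast hN
    gcongr
  by_contra hcon
  apply hnm
  refine IsMeagre.mono hsub (isMeagre_iUnion fun N => ?_)
  refine IsNowhereDense.isMeagre ?_
  rw [(hcl N).isNowhereDense_iff]
  by_contra hne
  obtain ⟨φ₀, hφ₀⟩ := nonempty_iff_ne_empty.2 hne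
  obtain ⟨r, hr, hball⟩ := Metric.isOpen_iff.1 isOpen_interior φ₀ hφ₀
  exact hcon ⟨N, φ₀, r, hr, fun φ hφ => interior_subset (hball hφ)⟩

/-- multiplication of a bounded continuous function by the fixed unimodular factor: real amplitudes -/
theorem real_amp (hK : Continuous fun p : X × V => K p.1 p.2) (hK1 : ∀ x y, ‖K x y‖ ≤ 1)
    {h : X → ℂ} (hh : Measurable h) {M : ℝ} (hM : ∀ x, ‖h x‖ ≤ M) {q τ : ℝ} (hq : 1 ≤ q)
    {N : ℕ} {φ₀ : X →ᵇ ℝ} {r : ℝ} (hr : 0 < r)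
    (hN : ∀ φ : X →ᵇ ℝ, dist φ φ₀ < r → ∀ R : ℝ, 1 ≤ R →
      J μ q (T ν K fun x => h x * ph φ x) R ≤ N * ENNReal.ofReal (R ^ τ)) :
    ∃ s : ℝ, 0 < s ∧ ∀ g : X → ℝ, Continuous g → (∀ x, |g x| ≤ s) → ∀ R : ℝ, 1 ≤ R →
      J μ q (T ν K fun x => h x * (ph φ₀ x * g x)) R ≤
        2 ^ q * (2 * N) * ENNReal.ofReal (R ^ τ) := by
  set r' : ℝ := min r 1 / 2 with hr'
  have hr'0 : 0 < r' := by positivity
  have hr'r : r' < r := by
    have := min_le_left r 1
    linarith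
  have hr'1 : r' ≤ 1 / 2 := by
    have := min_le_right r 1
    linarith
  have hpi := Real.pi_gt_three
  refine ⟨Real.sin r', Real.sin_pos_of_pos_of_lt_pi hr'0 (by linarith), fun g hg hgs R hR => ?_⟩
  have hs1 : Real.sin r' ≤ 1 := Real.sin_le_one _
  have hbd : ∀ x, |Real.arcsin (g x)| ≤ r' := fun x => by
    have h1 := abs_le.1 (hgs x)
    rw [abs_le]
    constructor
    · have : Real.arcsin (Real.sin (-r')) ≤ Real.arcsin (g x) := by
        apply Real.monotone_arcsin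
        rw [Real.sin_neg]; exact h1.1
      rwa [Real.arcsin_sin (by linarith) (by linarith)] at this
    · have : Real.arcsin (g x) ≤ Real.arcsin (Real.sin r') := Real.monotone_arcsin h1.2
      rwa [Real.arcsin_sin (by linarith) (by linarith)] at this
  set ψ : X →ᵇ ℝ := BoundedContinuousFunction.ofNormedAddCommGroup (fun x => Real.arcsin (g x))
    (Real.continuous_arcsin.comp hg) r' hbd with hψ
  have hψv : ∀ x, ψ x = Real.arcsin (g x) := fun x => rfl
  have hψn : ‖ψ‖ ≤ r' := BoundedContinuousFunction.norm_ofNormedAddCommGroup_le _ hr'0.le _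
  have hp := hN (φ₀ + ψ) (by rw [dist_eq_norm, add_sub_cancel_left]; exact hψn.trans_lt hr'r) R hR
  have hm := hN (φ₀ - ψ) (by
    rw [dist_eq_norm, sub_sub_cancel_left, norm_neg]; exact hψn.trans_lt hr'r) R hR
  have hpm : Measurable fun x => h x * ph (φ₀ + ψ) x := hh.mul (ph_meas (φ₀ + ψ))
  have hmm : Measurable fun x => h x * ph (φ₀ - ψ) x := hh.mul (ph_meas (φ₀ - ψ))
  have hkey : ∀ y, T ν K (fun x => h x * (ph φ₀ x * g x)) y =
      (2 * Complex.I)⁻¹ * T ν K (fun x => h x * ph (φ₀ + ψ) x) y +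
      (-(2 * Complex.I)⁻¹) * T ν K (fun x => h x * ph (φ₀ - ψ) x) y := fun y => by
    rw [← T_comb hK hK1 hpm (hp_bound hM _) hmm (hp_bound hM _)]
    congr 1
    funext x
    have hsin : Complex.sin (ψ x : ℂ) = (g x : ℂ) := by
      rw [hψv, ← Complex.ofReal_sin, Real.sin_arcsin]
      · have := (abs_le.1 (hgs x)).1; linarith
      · have := (abs_le.1 (hgs x)).2; linarith
    have e1 : ph (φ₀ + ψ) x = ph φ₀ x * Complex.exp (ψ x * Complex.I) := by
      unfold ph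
      rw [← Complex.exp_add]
      congr 1
      simp only [BoundedContinuousFunction.coe_add, Pi.add_apply]
      push_cast
      ring
    have e2 : ph (φ₀ - ψ) x = ph φ₀ x * Complex.exp (-ψ x * Complex.I) := by
      unfold ph
      rw [← Complex.exp_add]
      congr 1
      simp only [BoundedContinuousFunction.coe_sub, Pi.sub_apply]
      push_cast
      ring
    rw [e1, e2, ← hsin, Complex.sin]
    have hI : (Complex.I : ℂ) ≠ 0 := Complex.I_ne_zero
    have hI2 : (Complex.I : ℂ) * Complex.I = -1 := Complex.I_mul_I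
    field_simp
    ring_nf
    simp only [Complex.I_sq]
    ring
  have h1 : ∀ y, ‖T ν K (fun x => h x * (ph φ₀ x * g x)) y‖ ≤
      ‖T ν K (fun x => h x * ph (φ₀ + ψ) x) y‖ + ‖T ν K (fun x => h x * ph (φ₀ - ψ) x) y‖ := by
    intro y
    rw [hkey y]
    have hn : ‖(2 * Complex.I)⁻¹‖ ≤ 1 := by
      rw [norm_inv, norm_mul, Complex.norm_I, Complex.norm_two]; norm_num
    refine (norm_add_le _ _).trans (add_le_add ?_ ?_)
    · rw [norm_mul]
      exact mul_le_of_le_one_left (norm_nonneg _) hn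
    · rw [norm_mul, norm_neg]
      exact mul_le_of_le_one_left (norm_nonneg _) hn
  calc J μ q (T ν K fun x => h x * (ph φ₀ x * g x)) R
      ≤ 2 ^ q * (J μ q (T ν K fun x => h x * ph (φ₀ + ψ) x) R +
          J μ q (T ν K fun x => h x * ph (φ₀ - ψ) x) R) :=
        J_add hq (T_cont hK hK1 hmm (hp_bound hM _)).measurable h1 R
    _ ≤ 2 ^ q * (N * ENNReal.ofReal (R ^ τ) + N * ENNReal.ofReal (R ^ τ)) := by gcongr
    _ = 2 ^ q * (2 * N) * ENNReal.ofReal (R ^ τ) := by ring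

/-- all continuous amplitudes -/
theorem cont_amp (hK : Continuous fun p : X × V => K p.1 p.2) (hK1 : ∀ x y, ‖K x y‖ ≤ 1)
    {h : X → ℂ} (hh : Measurable h) {M : ℝ} (hM : ∀ x, ‖h x‖ ≤ M) {q τ : ℝ} (hq : 1 ≤ q)
    (hnm : ¬ IsMeagre {φ : X →ᵇ ℝ | Gd μ q τ (T ν K fun x => h x * ph φ x)}) :
    ∃ C : ℝ≥0, ∀ G : X → ℂ, Continuous G → (∀ x, ‖G x‖ ≤ 1) → ∀ R : ℝ, 1 ≤ R →
      J μ q (T ν K fun x => h x * G x) R ≤ C * ENNReal.ofReal (R ^ τ) := by
  obtain ⟨N, φ₀, r, hr, hN⟩ := baire hK hK1 hh hM (by linarith) hnm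
  obtain ⟨s, hs, hreal⟩ := real_amp hK hK1 hh hM hq hr hN
  have hq0 : (0 : ℝ) ≤ q := by linarith
  have h2q : (2 : ℝ≥0∞) ^ q ≠ ∞ := ENNReal.rpow_ne_top_of_nonneg hq0 (by norm_num)
  set D : ℝ≥0∞ := ENNReal.ofReal ((s⁻¹) ^ q) * (2 ^ q * (2 ^ q * (2 * N) + 2 ^ q * (2 * N))) with hD
  have hDt : D ≠ ∞ := by
    rw [hD]
    have h3 : (2 : ℝ≥0∞) ^ q * (2 * N) ≠ ∞ :=
      ENNReal.mul_ne_top h2q (ENNReal.mul_ne_top (by norm_num) (ENNReal.natCast_ne_top N))
    exact ENNReal.mul_ne_top ENNReal.ofReal_ne_top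
      (ENNReal.mul_ne_top h2q (ENNReal.add_ne_top.2 ⟨h3, h3⟩))
  refine ⟨D.toNNReal, fun G hG hG1 R hR => ?_⟩
  rw [ENNReal.coe_toNNReal hDt]
  -- the amplitude divided by the fixed factor
  set P : X → ℂ := fun x => (s : ℂ) * ((starRingEnd ℂ) (ph φ₀ x) * G x) with hP
  have hPc : Continuous P := by
    have h1 := ph_cont φ₀
    have h2 : Continuous fun x => (starRingEnd ℂ) (ph φ₀ x) := Complex.continuous_conj.comp h1
    exact continuous_const.mul (h2.mul hG)
  have hPn : ∀ x, ‖P x‖ ≤ s := fun x => by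
    rw [hP]
    simp only [norm_mul, Complex.norm_real, RCLike.norm_conj, ph_norm, one_mul,
      Real.norm_of_nonneg hs.le]
    exact mul_le_of_le_one_right hs.le (hG1 x)
  have hre := hreal (fun x => (P x).re) (Complex.continuous_re.comp hPc)
    (fun x => (Complex.abs_re_le_norm _).trans (hPn x)) R hR
  have him := hreal (fun x => (P x).im) (Complex.continuous_im.comp hPc)
    (fun x => (Complex.abs_im_le_norm _).trans (hPn x)) R hR
  have hrm : Measurable fun x => h x * (ph φ₀ x * ((P x).re : ℂ)) :=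
    hh.mul ((ph_meas φ₀).mul
      (Complex.continuous_ofReal.comp (Complex.continuous_re.comp hPc)).measurable)
  have him' : Measurable fun x => h x * (ph φ₀ x * ((P x).im : ℂ)) :=
    hh.mul ((ph_meas φ₀).mul
      (Complex.continuous_ofReal.comp (Complex.continuous_im.comp hPc)).measurable)
  have hrb : ∀ x, ‖h x * (ph φ₀ x * ((P x).re : ℂ))‖ ≤ M * s := fun x => by
    rw [norm_mul, norm_mul, ph_norm, one_mul, Complex.norm_real]
    exact mul_le_mul (hM x) ((Complex.abs_re_le_norm _).trans (hPn x)) (norm_nonneg _)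
      ((norm_nonneg _).trans (hM x))
  have hib : ∀ x, ‖h x * (ph φ₀ x * ((P x).im : ℂ))‖ ≤ M * s := fun x => by
    rw [norm_mul, norm_mul, ph_norm, one_mul, Complex.norm_real]
    exact mul_le_mul (hM x) ((Complex.abs_im_le_norm _).trans (hPn x)) (norm_nonneg _)
      ((norm_nonneg _).trans (hM x))
  have hsc : (s : ℂ) ≠ 0 := by exact_mod_cast hs.ne'
  have hkey : ∀ y, T ν K (fun x => h x * G x) y =
      (s : ℂ)⁻¹ * T ν K (fun x => h x * (ph φ₀ x * ((P x).re : ℂ))) y +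
      ((s : ℂ)⁻¹ * Complex.I) * T ν K (fun x => h x * (ph φ₀ x * ((P x).im : ℂ))) y := fun y => by
    rw [← T_comb hK hK1 hrm hrb him' hib]
    congr 1
    funext x
    have e1 : G x = (s : ℂ)⁻¹ * (ph φ₀ x * P x) := by
      rw [hP]
      have e2 : ph φ₀ x * (starRingEnd ℂ) (ph φ₀ x) = 1 := by
        rw [Complex.mul_conj, Complex.normSq_eq_norm_sq, ph_norm]; simp
      calc G x = (s : ℂ)⁻¹ * (s : ℂ) * (ph φ₀ x * (starRingEnd ℂ) (ph φ₀ x)) * G x := by
            rw [e2, inv_mul_cancel₀ hsc]; ring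
        _ = _ := by ring
    have e3 : P x = ((P x).re : ℂ) + ((P x).im : ℂ) * Complex.I := (Complex.re_add_im _).symm
    calc h x * G x = h x * ((s : ℂ)⁻¹ * (ph φ₀ x * P x)) := by rw [← e1]
      _ = h x * ((s : ℂ)⁻¹ * (ph φ₀ x * (((P x).re : ℂ) + ((P x).im : ℂ) * Complex.I))) := by
          rw [← e3]
      _ = _ := by ring
  -- combine
  set A : V → ℂ := T ν K (fun x => h x * (ph φ₀ x * ((P x).re : ℂ))) with hA
  set B : V → ℂ := T ν K (fun x => h x * (ph φ₀ x * ((P x).im : ℂ))) with hB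
  have h1 : ∀ y, ‖T ν K (fun x => h x * G x) y‖ ≤ s⁻¹ * ‖A y + Complex.I * B y‖ := fun y => by
    rw [hkey y]
    have e4 : (s : ℂ)⁻¹ * A y + ((s : ℂ)⁻¹ * Complex.I) * B y =
        (s : ℂ)⁻¹ * (A y + Complex.I * B y) := by ring
    rw [e4, norm_mul, norm_inv, Complex.norm_real, Real.norm_of_nonneg hs.le]
  have h2 : ∀ y, ‖A y + Complex.I * B y‖ ≤ ‖A y‖ + ‖B y‖ := fun y => by
    refine (norm_add_le _ _).trans ?_
    rw [norm_mul, Complex.norm_I, one_mul]
  calc J μ q (T ν K fun x => h x * G x) R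
      ≤ ENNReal.ofReal ((s⁻¹) ^ q) * J μ q (fun y => A y + Complex.I * B y) R :=
        J_scale hq0 (inv_nonneg.2 hs.le) h1 R
    _ ≤ ENNReal.ofReal ((s⁻¹) ^ q) * (2 ^ q * (J μ q A R + J μ q B R)) := by
        gcongr
        exact J_add hq (T_cont hK hK1 him' hib).measurable h2 R
    _ ≤ ENNReal.ofReal ((s⁻¹) ^ q) * (2 ^ q * (2 ^ q * (2 * N) * ENNReal.ofReal (R ^ τ) +
          2 ^ q * (2 * N) * ENNReal.ofReal (R ^ τ))) := by
        gcongr
    _ = D * ENNReal.ofReal (R ^ τ) := by rw [hD]; ring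

/-- bounded measurable functions are limits of bounded continuous ones -/
theorem approx (f : X → ℂ) (hf : Measurable f) (hf1 : ∀ x, ‖f x‖ ≤ 1) :
    ∃ G : ℕ → X → ℂ, (∀ j, Continuous (G j)) ∧ (∀ j x, ‖G j x‖ ≤ 1) ∧
      Tendsto (fun j => ∫ x, ‖G j x - f x‖ ∂ν) atTop (𝓝 0) := by
  have hfi : Integrable f ν :=
    Integrable.of_bound hf.aestronglyMeasurable 1 (Eventually.of_forall hf1)
  have h1 : ∀ j : ℕ, ∃ g : X →ᵇ ℂ, ∫ x, ‖f x - g x‖ ∂ν ≤ 1 / ((j : ℝ) + 1) := fun j => by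
    obtain ⟨g, hg, -⟩ := hfi.exists_boundedContinuous_integral_sub_le
      (ε := 1 / ((j : ℝ) + 1)) (by positivity)
    exact ⟨g, hg⟩
  choose g hg using h1
  set π' : ℂ → ℂ := fun z => (((max 1 ‖z‖)⁻¹ : ℝ) : ℂ) * z with hπ
  have hπc : Continuous π' := by
    have : Continuous fun z : ℂ => (max 1 ‖z‖)⁻¹ :=
      (continuous_const.max continuous_norm).inv₀ fun z => by positivity
    exact (Complex.continuous_ofReal.comp this).mul continuous_id
  have hπ1 : ∀ z, ‖π' z‖ ≤ 1 := fun z => by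
    simp only [hπ, norm_mul, Complex.norm_real, norm_inv]
    rw [Real.norm_of_nonneg (by positivity), inv_mul_le_one₀ (by positivity)]
    exact le_max_right _ _
  have hπ2 : ∀ z w : ℂ, ‖w‖ ≤ 1 → ‖π' z - w‖ ≤ 2 * ‖w - z‖ := fun z w hw => by
    have h2 : ‖π' z - z‖ ≤ ‖w - z‖ := by
      rcases le_total ‖z‖ 1 with hz | hz
      · have : π' z = z := by simp [hπ, max_eq_left hz]
        rw [this, sub_self, norm_zero]; exact norm_nonneg _
      · have e1 : π' z - z = (((‖z‖)⁻¹ - 1 : ℝ) : ℂ) * z := by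
          simp only [hπ, max_eq_right hz]; push_cast; ring
        have hz0 : 0 < ‖z‖ := by linarith
        rw [e1, norm_mul, Complex.norm_real, Real.norm_eq_abs, abs_sub_comm, abs_of_nonneg
          (sub_nonneg.2 (inv_le_one_of_one_le₀ hz)), sub_mul, inv_mul_cancel₀ hz0.ne', one_mul]
        have h3 := norm_sub_norm_le z w
        rw [norm_sub_rev] at h3
        linarith
    calc ‖π' z - w‖ = ‖(π' z - z) + (z - w)‖ := by congr 1; ring
      _ ≤ ‖π' z - z‖ + ‖z - w‖ := norm_add_le _ _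
      _ ≤ ‖w - z‖ + ‖w - z‖ := by rw [norm_sub_rev z w]; gcongr
      _ = 2 * ‖w - z‖ := by ring
  refine ⟨fun j x => π' (g j x), fun j => hπc.comp (g j).continuous, fun j x => hπ1 _, ?_⟩
  have h4 : Tendsto (fun j : ℕ => 2 * (1 / ((j : ℝ) + 1))) atTop (𝓝 0) := by
    have := (tendsto_one_div_add_atTop_nhds_zero_nat (𝕜 := ℝ)).const_mul 2
    simpa using this
  refine squeeze_zero (fun j => integral_nonneg fun x => norm_nonneg _) (fun j => ?_) h4
  have hgi : Integrable (g j) ν := Integrable.of_bound (g j).continuous.measurable.aestronglyMeasurable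
    ‖g j‖ (Eventually.of_forall fun x => (g j).norm_coe_le_norm x)
  calc ∫ x, ‖π' (g j x) - f x‖ ∂ν ≤ ∫ x, 2 * ‖f x - g j x‖ ∂ν := by
        refine integral_mono_of_nonneg (Eventually.of_forall fun x => norm_nonneg _)
          ((hfi.sub hgi).norm.const_mul 2) (Eventually.of_forall fun x => hπ2 _ _ (hf1 x))
    _ = 2 * ∫ x, ‖f x - g j x‖ ∂ν := integral_const_mul _ _
    _ ≤ 2 * (1 / ((j : ℝ) + 1)) := by gcongr; exact hg j

/-- the conclusion for all bounded measurable amplitudes -/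
theorem main (hK : Continuous fun p : X × V => K p.1 p.2) (hK1 : ∀ x y, ‖K x y‖ ≤ 1)
    {h : X → ℂ} (hh : Measurable h) {M : ℝ} (hM : ∀ x, ‖h x‖ ≤ M) {q τ : ℝ} (hq : 1 ≤ q)
    (hnm : ¬ IsMeagre {φ : X →ᵇ ℝ | Gd μ q τ (T ν K fun x => h x * ph φ x)}) :
    ∃ C : ℝ≥0, ∀ f : X → ℂ, Measurable f → (∀ x, ‖f x‖ ≤ 1) → ∀ R : ℝ, 1 ≤ R →
      J μ q (T ν K fun x => h x * f x) R ≤ C * ENNReal.ofReal (R ^ τ) := by
  obtain ⟨C, hC⟩ := cont_amp hK hK1 hh hM hq hnm
  refine ⟨C, fun f hf hf1 R hR => ?_⟩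
  obtain ⟨G, hGc, hG1, hGt⟩ := approx (ν := ν) f hf hf1
  have hb : ∀ (g : X → ℂ), (∀ x, ‖g x‖ ≤ 1) → ∀ x, ‖h x * g x‖ ≤ M := fun g hg x => by
    rw [norm_mul]
    calc ‖h x‖ * ‖g x‖ ≤ M * 1 :=
          mul_le_mul (hM x) (hg x) (norm_nonneg _) ((norm_nonneg _).trans (hM x))
      _ = M := mul_one M
  refine J_le_of_tendsto (by linarith) (F := fun j => T ν K fun x => h x * G j x)
    (fun j => (T_cont hK hK1 (hh.mul (hGc j).measurable) (hb _ (hG1 j))).measurable)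
    (fun y => ?_) (fun j => hC _ (hGc j) (hG1 j) R hR)
  rw [tendsto_iff_norm_sub_tendsto_zero]
  have h1 : Tendsto (fun j => M * ∫ x, ‖G j x - f x‖ ∂ν) atTop (𝓝 0) := by
    simpa using hGt.const_mul M
  refine squeeze_zero (fun j => norm_nonneg _) (fun j => ?_) h1
  refine (T_sub_le hK hK1 (hh.mul (hGc j).measurable) (hb _ (hG1 j)) (hh.mul hf)
    (hb _ hf1) y).trans ?_
  rw [← integral_const_mul]
  refine integral_mono_of_nonneg (Eventually.of_forall fun x => norm_nonneg _)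
    (Integrable.const_mul (Integrable.of_bound ((hGc j).measurable.sub hf).norm.aestronglyMeasurable 2
      (Eventually.of_forall fun x => ?_)) M) (Eventually.of_forall fun x => ?_)
  · rw [Real.norm_of_nonneg (norm_nonneg _)]
    calc ‖G j x - f x‖ ≤ ‖G j x‖ + ‖f x‖ := norm_sub_le _ _
      _ ≤ 1 + 1 := add_le_add (hG1 j x) (hf1 x)
      _ = 2 := by norm_num
  · show ‖h x * G j x - h x * f x‖ ≤ M * ‖G j x - f x‖
    rw [← mul_sub, norm_mul]
    exact mul_le_mul_of_nonneg_right (hM x) (norm_nonneg _)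

end Pool.Agent.Helper184.PH
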