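import Pool.Agent.Helper184.PH.Mod3

/-!
The universal modulus.
-/

open MeasureTheory Set Filter Metric
open scoped ENNReal NNReal Topology BoundedContinuousFunction

namespace Pool.Agent.Helper184.PH.P3

theorem mod_finite {U : Set (E 2)} (hUv : volume U ≠ ∞) {a : E 2 → ℝ≥0} (ha : Measurable a) {q : ℝ}
    (hq : 1 ≤ q) (hfin : (∫⁻ x in U, (a x : ℝ≥0∞) ^ q) ≠ ∞) :
    IsFiniteMeasure ((volume.restrict U).withDensity fun x => (a x : ℝ≥0∞)) := by
  refine ⟨?_⟩
  rw [withDensity_apply _ MeasurableSet.univ, setLIntegral_univ]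
  have hm : Measurable fun x => (a x : ℝ≥0∞) ^ q := ha.coe_nnreal_ennreal.pow_const q
  have h1 : (∫⁻ x in U, (a x : ℝ≥0∞)) ≤ ∫⁻ x in U, (1 + (a x : ℝ≥0∞) ^ q) := by
    refine lintegral_mono fun x => ?_
    rcases le_total (a x : ℝ≥0∞) 1 with h | h
    · exact h.trans le_self_add
    · calc (a x : ℝ≥0∞) = (a x : ℝ≥0∞) ^ (1 : ℝ) := (ENNReal.rpow_one _).symm
        _ ≤ (a x : ℝ≥0∞) ^ q := ENNReal.rpow_le_rpow_of_exponent_le h hq
        _ ≤ 1 + (a x : ℝ≥0∞) ^ q := le_add_self
  refine h1.trans_lt ?_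
  rw [lintegral_add_right _ hm, setLIntegral_one]
  exact ENNReal.add_lt_top.2 ⟨hUv.lt_top, hfin.lt_top⟩

theorem T_mod {U : Set (E 2)} {a : E 2 → ℝ≥0} (ha : Measurable a) (f : E 2 → ℂ) (ξ : E 3) :
    T ((volume.restrict U).withDensity fun x => (a x : ℝ≥0∞)) K3 f ξ =
      ext U (fun x => (a x : ℂ) * f x) ξ := by
  unfold T ext
  rw [integral_withDensity_eq_integral_smul ha]
  refine integral_congr_ae (Eventually.of_forall fun x => ?_)
  show a x • (f x * K3 x ξ) = ((a x : ℝ) : ℂ) * f x * K3 x ξ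
  rw [NNReal.smul_def, Complex.real_smul, mul_assoc]

/-- the shift in the frequency plane -/
noncomputable def io (z : E 2) : E 3 := !₂[-(2 * Real.pi) * z 0, -(2 * Real.pi) * z 1, 0]

theorem io_cont : Continuous io := by
  unfold io; fun_prop

theorem K3_io (x z : E 2) : K3 x (io z) =
    Complex.exp ((2 * Real.pi * inner ℝ x z : ℝ) * Complex.I) := by
  unfold K3
  have e0 : (io z) 0 = -(2 * Real.pi) * z 0 := rfl
  have e1 : (io z) 1 = -(2 * Real.pi) * z 1 := rfl
  have e2 : (io z) 2 = 0 := rfl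
  have e3 : (inner ℝ x z : ℝ) = x 0 * z 0 + x 1 * z 1 := by
    simp [PiLp.inner_apply, Fin.sum_univ_two]
    ring
  rw [inner_Phi, e0, e1, e2, e3]
  congr 1
  push_cast
  ring

theorem typical3 {U : Set (E 2)} (hU : MeasurableSet U) (hUb : U ⊆ ball 0 (1 / 2)) {q : ℝ}
    (hq : 1 ≤ q) (hnot : ¬ Est U q) :
    ∃ a : E 2 → ℝ≥0, Measurable a ∧ (∫⁻ x in U, (a x : ℝ≥0∞) ^ q) ≠ ∞ ∧
      ∀ᶠ φ : E 2 →ᵇ ℝ in residual _, ∀ W : Set (E 2), IsOpen W → (W ∩ interior U).Nonempty →
        (∫⁻ ξ, ‖ext U (fun x => (a x : ℂ) * W.indicator (ph φ) x) ξ‖ₑ ^ q) = ∞ := by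
  have hq0 : 0 < q := by linarith
  have hUv : volume U ≠ ∞ := ((measure_mono hUb).trans_lt measure_ball_lt_top).ne
  have hr0 : ∀ k : ℕ, (0 : ℝ) < 1 / ((k : ℝ) + 1) := fun k => by positivity
  set O : ℕ × ℕ → Set (E 2) := fun p =>
    ball (TopologicalSpace.denseSeq (E 2) p.1) (1 / ((p.2 : ℝ) + 1) / 2) ∩ interior U with hO
  have hOo : ∀ p, IsOpen (O p) := fun p => isOpen_ball.inter isOpen_interior
  have hOU : ∀ p, O p ⊆ U := fun p => inter_subset_right.trans interior_subset
  have hbad : ∀ p, ∃ b : E 2 → ℝ≥0, Measurable b ∧ (∫⁻ x in O p, (b x : ℝ≥0∞) ^ q) ≠ ∞ ∧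
      ((O p).Nonempty → ¬ GoodMod (O p) q b) := fun p => by
    by_cases hne : (O p).Nonempty
    · by_contra hc
      push Not at hc
      apply hnot
      refine Est_of_open hU hUb (hOo p) hne hq0 (hump hq0 fun b hb hfin => ?_)
      exact (hc b hb hfin).2
    · exact ⟨0, measurable_const, by simp [hq0], fun h => absurd h hne⟩
  choose b hbm hbfin hbbad using hbad
  obtain ⟨ε, hε0, hε1⟩ := ENNReal.exists_pos_sum_of_countable (ε := 1) one_ne_zero (ℕ × ℕ)
  set g : ℕ × ℕ → E 2 → ℝ≥0∞ := fun p => (O p).indicator fun x => (b p x : ℝ≥0∞) with hg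
  have hgm : ∀ p, Measurable (g p) := fun p =>
    (hbm p).coe_nnreal_ennreal.indicator (hOo p).measurableSet
  have hgint : ∀ p, (∫⁻ x in U, g p x ^ q) = ∫⁻ x in O p, (b p x : ℝ≥0∞) ^ q := fun p => by
    have h1 : ∀ x, g p x ^ q = (O p).indicator (fun x => (b p x : ℝ≥0∞) ^ q) x := fun x => by
      by_cases hx : x ∈ O p
      · rw [hg]; simp only; rw [indicator_of_mem hx, indicator_of_mem hx]
      · rw [hg]; simp only
        rw [indicator_of_notMem hx, indicator_of_notMem hx, ENNReal.zero_rpow_of_pos hq0]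
    simp only [h1]
    rw [setLIntegral_indicator (hOo p).measurableSet, inter_eq_left.2 (hOU p)]
  obtain ⟨a, ham, hafin, hdom⟩ := combine (O := U) hq0 g hgm ε hε1
  refine ⟨a, ham, hafin, ?_⟩
  haveI := mod_finite hUv ham hq hafin
  set ν : Measure (E 2) := (volume.restrict U).withDensity fun x => (a x : ℝ≥0∞) with hν
  choose h k hhc hkc hki hkτ hh1 hhone hhzero hrep using
    fun (p : ℕ × ℕ) => bump (TopologicalSpace.denseSeq (E 2) p.1) (hr0 p.2)
  have key : ∀ p : ℕ × ℕ, ∀ᶠ φ : E 2 →ᵇ ℝ in residual _, (O p).Nonempty →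
      ¬ (∫⁻ ξ, ‖T ν K3 (fun x => h p x * ph φ x) ξ‖ₑ ^ q) < ∞ := fun p => by
    by_cases hp : (O p).Nonempty
    · by_cases hm : IsMeagre {φ : E 2 →ᵇ ℝ |
          (∫⁻ ξ, ‖T ν K3 (fun x => h p x * ph φ x) ξ‖ₑ ^ q) < ∞}
      · filter_upwards [hm] with φ hφ _ using hφ
      · exfalso
        obtain ⟨C, hC⟩ := main0 K3_cont K3_norm (hhc p).measurable (hh1 p) hq hm
        have hB0 : (∫⁻ x in U, g p x ^ q) ≠ 0 := fun h0 => by
          rw [hgint p] at h0
          apply hbbad p hp
          refine ⟨0, fun w hw hw1 => ?_⟩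
          have h1 : (fun x => (b p x : ℝ≥0∞) ^ q) =ᵐ[volume.restrict (O p)] 0 :=
            (lintegral_eq_zero_iff ((hbm p).coe_nnreal_ennreal.pow_const q)).1 h0
          have h2 : ∀ ξ, ext (O p) (fun x => (b p x : ℂ) * w x) ξ = 0 := fun ξ => by
            unfold ext
            rw [integral_eq_zero_of_ae]
            filter_upwards [h1] with x hx
            have h3 : (b p x : ℝ≥0∞) ^ q = 0 := hx
            rw [ENNReal.rpow_eq_zero_iff_of_pos hq0, ENNReal.coe_eq_zero] at h3
            simp [h3]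
          simp [h2, ENNReal.zero_rpow_of_pos hq0]
        have hBt : (∫⁻ x in U, g p x ^ q) ≠ ∞ := by rw [hgint p]; exact hbfin p
        set B : ℝ≥0∞ := ∫⁻ x in U, g p x ^ q with hB
        have hBr : 0 < B.toReal := ENNReal.toReal_pos hB0 hBt
        have hεp : (0 : ℝ) < ε p := hε0 p
        set d : ℝ := (B.toReal / ε p) ^ (1 / q) with hd
        have hd0 : 0 < d := by positivity
        apply hbbad p hp
        set D : ℝ≥0∞ := ENNReal.ofReal (d ^ q) * C with hD
        have hDt : D ≠ ∞ := ENNReal.mul_ne_top ENNReal.ofReal_ne_top ENNReal.coe_ne_top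
        refine ⟨D.toNNReal, fun w hw hw1 => ?_⟩
        rw [ENNReal.coe_toNNReal hDt]
        set F : E 2 → ℂ := (O p).indicator fun x => (b p x : ℂ) * w x with hF
        have hbc : Measurable fun x => ((b p x : ℝ) : ℂ) :=
          Complex.measurable_ofReal.comp (hbm p).coe_nnreal_real
        have hFm : Measurable F := (hbc.mul hw).indicator (hOo p).measurableSet
        have hFg : ∀ x, ‖F x‖ₑ ≤ g p x := fun x => by
          by_cases hx : x ∈ O p
          · rw [hF, hg]; simp only
            rw [indicator_of_mem hx, indicator_of_mem hx]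
            show ‖((b p x : ℝ) : ℂ) * w x‖ₑ ≤ (b p x : ℝ≥0∞)
            rw [← ofReal_norm, norm_mul, Complex.norm_real,
              Real.norm_of_nonneg (b p x).coe_nonneg]
            calc ENNReal.ofReal ((b p x : ℝ) * ‖w x‖) ≤ ENNReal.ofReal (b p x : ℝ) :=
                  ENNReal.ofReal_le_ofReal
                    (mul_le_of_le_one_right (b p x).coe_nonneg (hw1 x))
              _ = (b p x : ℝ≥0∞) := ENNReal.ofReal_coe_nnreal
          · rw [hF, hg]; simp only
            rw [indicator_of_notMem hx, indicator_of_notMem hx]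
            simp
        obtain ⟨g', hg'm, hg'1, hg'0, hext⟩ := dominate (O := U) ham hFm hd0 (by
          filter_upwards [hdom p] with x hx
          refine dom_real hq0 (hε0 p) hB0 hBt (le_trans ?_ hx)
          gcongr
          exact hFg x)
        have e1 : ∀ ξ, ext (O p) (fun x => (b p x : ℂ) * w x) ξ = ext U F ξ := fun ξ => by
          unfold ext
          have e2 : ∀ x, F x * Complex.exp (-(inner ℝ (Phi x) ξ : ℝ) * Complex.I) =
              (O p).indicator (fun x => (b p x : ℂ) * w x *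
                Complex.exp (-(inner ℝ (Phi x) ξ : ℝ) * Complex.I)) x := fun x => by
            by_cases hx : x ∈ O p
            · rw [indicator_of_mem hx, hF, indicator_of_mem hx]
            · rw [indicator_of_notMem hx, hF, indicator_of_notMem hx, zero_mul]
          simp only [e2]
          rw [setIntegral_indicator (hOo p).measurableSet, inter_eq_right.2 (hOU p)]
        have e3 : (fun x => h p x * g' x) = g' := by
          funext x
          by_cases hx : x ∈ O p
          · rw [hhone p x (ball_subset_closedBall hx.1), one_mul]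
          · have : F x = 0 := by rw [hF, indicator_of_notMem hx]
            rw [hg'0 x this, mul_zero]
        have h5 := hC g' hg'm hg'1
        rw [e3] at h5
        have e4 : ∀ ξ, T ν K3 g' ξ = ext U (fun x => (a x : ℂ) * g' x) ξ := T_mod ham g'
        simp only [e4] at h5
        simp only [e1]
        rw [ext_scale hq0.le hd0 hext, hD]
        gcongr
    · exact Eventually.of_forall fun φ h => absurd h hp
  filter_upwards [eventually_countable_forall.2 key] with φ hφ W hW hne
  by_contra hfin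
  obtain ⟨u, huW, huU⟩ := hne
  obtain ⟨e, he, hball⟩ := Metric.isOpen_iff.1 hW u huW
  obtain ⟨m, hm⟩ := exists_nat_one_div_lt (half_pos he)
  set r : ℝ := 1 / ((m : ℝ) + 1) with hr
  have hr' : 0 < r := hr0 m
  obtain ⟨i, hi⟩ := (TopologicalSpace.denseRange_denseSeq (E 2)).exists_dist_lt u (half_pos hr')
  have hsub : ∀ x, x ∉ W → h (i, m) x = 0 := fun x hx => by
    apply hhzero (i, m)
    intro hxb
    apply hx
    apply hball
    rw [mem_ball] at hxb ⊢
    have h5 : dist x u ≤ dist x (TopologicalSpace.denseSeq (E 2) i) +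
        dist u (TopologicalSpace.denseSeq (E 2) i) := by
      rw [dist_comm u]; exact dist_triangle _ _ _
    have h6 : dist x (TopologicalSpace.denseSeq (E 2) i) < r := hxb
    linarith
  have hne' : (O (i, m)).Nonempty := ⟨u, by rw [mem_ball]; exact hi, huU⟩
  have hfm : Measurable (W.indicator (ph φ)) := (ph_meas φ).indicator hW.measurableSet
  have hf1 : ∀ x, ‖W.indicator (ph φ) x‖ ≤ 1 := fun x => by
    by_cases hx : x ∈ W
    · rw [indicator_of_mem hx, ph_norm]
    · rw [indicator_of_notMem hx, norm_zero]; norm_num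
  have hgd : (∫⁻ ξ, ‖T ν K3 (W.indicator (ph φ)) ξ‖ₑ ^ q) < ∞ := by
    have e5 : ∀ ξ, T ν K3 (W.indicator (ph φ)) ξ =
        ext U (fun x => (a x : ℂ) * W.indicator (ph φ) x) ξ := T_mod ham _
    simp only [e5]
    exact lt_top_iff_ne_top.2 hfin
  have hg2 := mult0 (μ := (volume : Measure (E 3))) (ρ := (volume : Measure (E 2)))
    (ν := ν) (K := K3) K3_cont K3_norm io io_cont
    (fun x y z => by
      unfold K3
      rw [← Complex.exp_add]
      congr 1
      simp only [inner_add_right]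
      push_cast
      ring)
    (hkc (i, m)) (hki (i, m)) hq (h := h (i, m))
    (fun x => by
      rw [hrep (i, m) x]
      refine integral_congr_ae (Eventually.of_forall fun z => ?_)
      show k (i, m) z * Complex.exp ((2 * Real.pi * inner ℝ x z : ℝ) * Complex.I) =
        k (i, m) z * K3 x (io z)
      rw [K3_io])
    hfm hf1 hgd
  have h7 : (fun x => h (i, m) x * W.indicator (ph φ) x) = fun x => h (i, m) x * ph φ x := by
    funext x
    by_cases hx : x ∈ W
    · rw [indicator_of_mem hx]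
    · rw [hsub x hx, zero_mul, zero_mul]
  rw [h7] at hg2
  exact hφ (i, m) hne' hg2

end Pool.Agent.Helper184.PH.P3
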