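import Pool.Agent.Helper184.PH.Ext3

/-!
Moduli: one modulus that dominates countably many, and the gliding hump.
-/

open MeasureTheory Set Filter Metric
open scoped ENNReal NNReal Topology BoundedContinuousFunction

namespace Pool.Agent.Helper184.PH.P3

/-- one modulus for countably many functions -/
theorem combine {ι : Type} [Countable ι] {O : Set (E 2)} {q : ℝ} (hq : 0 < q)
    (g : ι → E 2 → ℝ≥0∞) (hg : ∀ i, Measurable (g i)) (ε : ι → ℝ≥0)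
    (hε : (∑' i, (ε i : ℝ≥0∞)) < 1) :
    ∃ a : E 2 → ℝ≥0, Measurable a ∧ (∫⁻ x in O, (a x : ℝ≥0∞) ^ q) ≠ ∞ ∧
      ∀ i, ∀ᵐ x ∂(volume.restrict O),
        ((ε i : ℝ≥0∞) / ∫⁻ y in O, g i y ^ q) * g i x ^ q ≤ (a x : ℝ≥0∞) ^ q := by
  set c : ι → ℝ≥0∞ := fun i => (ε i : ℝ≥0∞) / ∫⁻ y in O, g i y ^ q with hc
  set A : E 2 → ℝ≥0∞ := fun x => ∑' i, c i * g i x ^ q with hA
  have hAm : Measurable A := Measurable.tsum fun i => ((hg i).pow_const q).const_mul _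
  have hAint : (∫⁻ x in O, A x) ≤ 1 := by
    rw [hA, lintegral_tsum fun i => (((hg i).pow_const q).const_mul _).aemeasurable]
    refine le_trans (ENNReal.tsum_le_tsum fun i => ?_) hε.le
    rw [lintegral_const_mul _ ((hg i).pow_const q)]
    rw [hc, mul_comm]
    exact ENNReal.mul_div_le
  have hAfin : ∀ᵐ x ∂(volume.restrict O), A x < ∞ :=
    ae_lt_top hAm (ne_top_of_le_ne_top ENNReal.one_ne_top hAint)
  set a : E 2 → ℝ≥0 := fun x => (A x ^ (1 / q)).toNNReal with ha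
  have ham : Measurable a := (hAm.pow_const _).ennreal_toNNReal
  have haq : ∀ᵐ x ∂(volume.restrict O), (a x : ℝ≥0∞) ^ q = A x := by
    filter_upwards [hAfin] with x hx
    have h1 : A x ^ (1 / q) ≠ ∞ := ENNReal.rpow_ne_top_of_nonneg (by positivity) hx.ne
    rw [ha]
    simp only
    rw [ENNReal.coe_toNNReal h1, ← ENNReal.rpow_mul, one_div, inv_mul_cancel₀ hq.ne',
      ENNReal.rpow_one]
  refine ⟨a, ham, ?_, fun i => ?_⟩
  · rw [lintegral_congr_ae haq]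
    exact ne_top_of_le_ne_top ENNReal.one_ne_top hAint
  · filter_upwards [haq] with x hx
    rw [hx]
    exact ENNReal.le_tsum i

/-- division by the modulus -/
theorem dominate {O : Set (E 2)} {a : E 2 → ℝ≥0} (ha : Measurable a) {f : E 2 → ℂ}
    (hf : Measurable f) {d : ℝ} (hd : 0 < d)
    (h : ∀ᵐ x ∂(volume.restrict O), ‖f x‖ ≤ d * a x) :
    ∃ g : E 2 → ℂ, Measurable g ∧ (∀ x, ‖g x‖ ≤ 1) ∧ (∀ x, f x = 0 → g x = 0) ∧
      ∀ ξ, ext O f ξ = (d : ℂ) * ext O (fun x => (a x : ℂ) * g x) ξ := by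
  classical
  set S : Set (E 2) := {x | ‖f x‖ ≤ d * a x} with hS
  have hSm : MeasurableSet S :=
    measurableSet_le hf.norm (measurable_const.mul ha.coe_nnreal_real)
  have ham : Measurable fun x => (d : ℂ) * (a x : ℂ) := by
    have h1 : Measurable fun x => ((a x : ℝ) : ℂ) := Complex.measurable_ofReal.comp ha.coe_nnreal_real
    exact measurable_const.mul h1
  refine ⟨S.indicator fun x => f x / ((d : ℂ) * (a x : ℂ)), (hf.div ham).indicator hSm,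
    fun x => ?_, fun x hx => ?_, fun ξ => ?_⟩
  · by_cases hx : x ∈ S
    · rw [indicator_of_mem hx, norm_div]
      have e1 : ‖(d : ℂ) * (a x : ℂ)‖ = d * a x := by
        rw [norm_mul, Complex.norm_real, Real.norm_of_nonneg hd.le]
        congr 1
        exact Complex.norm_of_nonneg (a x).2
      rw [e1]
      exact div_le_one_of_le₀ hx (by positivity)
    · rw [indicator_of_notMem hx, norm_zero]; norm_num
  · by_cases hx' : x ∈ S
    · rw [indicator_of_mem hx', hx, zero_div]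
    · rw [indicator_of_notMem hx']
  · unfold ext
    rw [← integral_const_mul]
    refine integral_congr_ae ?_
    filter_upwards [h] with x hx
    have hxS : x ∈ S := hx
    rw [indicator_of_mem hxS]
    by_cases h0 : a x = 0
    · have h1 : ‖f x‖ ≤ 0 := by
        have : ‖f x‖ ≤ d * a x := hx
        rwa [h0, NNReal.coe_zero, mul_zero] at this
      have h2 : f x = 0 := norm_le_zero_iff.1 h1
      rw [h2]; simp
    · have h3 : ((a x : ℝ) : ℂ) ≠ 0 := by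
        rw [Ne, Complex.ofReal_eq_zero]; exact_mod_cast h0
      have h4 : (d : ℂ) ≠ 0 := by exact_mod_cast hd.ne'
      show f x * _ = (d : ℂ) * ((((a x : ℝ) : ℂ) * (f x / ((d : ℂ) * ((a x : ℝ) : ℂ)))) * _)
      field_simp

/-- the modulus is good: all functions dominated by it are in `L^q` with one constant -/
def GoodMod (O : Set (E 2)) (q : ℝ) (a : E 2 → ℝ≥0) : Prop :=
  ∃ C : ℝ≥0, ∀ g : E 2 → ℂ, Measurable g → (∀ x, ‖g x‖ ≤ 1) →
    (∫⁻ ξ, ‖ext O (fun x => (a x : ℂ) * g x) ξ‖ₑ ^ q) ≤ C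

theorem ext_scale {O : Set (E 2)} {q : ℝ} (hq : 0 ≤ q) {f g : E 2 → ℂ} {d : ℝ} (hd : 0 < d)
    (h : ∀ ξ, ext O f ξ = (d : ℂ) * ext O g ξ) :
    (∫⁻ ξ, ‖ext O f ξ‖ₑ ^ q) = ENNReal.ofReal (d ^ q) * ∫⁻ ξ, ‖ext O g ξ‖ₑ ^ q := by
  rw [← lintegral_const_mul' _ _ ENNReal.ofReal_ne_top]
  refine lintegral_congr fun ξ => ?_
  rw [h ξ, enorm_mul, ENNReal.mul_rpow_of_nonneg _ _ hq, ← ofReal_norm (d : ℂ), Complex.norm_real,
    Real.norm_of_nonneg hd.le, ENNReal.ofReal_rpow_of_nonneg hd.le hq]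

/-- from `ε/B |f|^q ≤ a^q` to `|f| ≤ d a` -/
theorem dom_real {q : ℝ} (hq : 0 < q) {ε : ℝ≥0} (hε : 0 < ε) {B : ℝ≥0∞} (hB0 : B ≠ 0)
    (hB : B ≠ ∞) {z : ℂ} {a : ℝ≥0} (h : ((ε : ℝ≥0∞) / B) * ‖z‖ₑ ^ q ≤ (a : ℝ≥0∞) ^ q) :
    ‖z‖ ≤ ((B.toReal / ε) ^ (1 / q)) * a := by
  have hBr : 0 < B.toReal := ENNReal.toReal_pos hB0 hB
  have hε' : (0 : ℝ) < ε := hε
  have h1 : ((ε : ℝ) / B.toReal) * ‖z‖ ^ q ≤ (a : ℝ) ^ q := by
    have h2 := ENNReal.toReal_mono (ENNReal.rpow_ne_top_of_nonneg hq.le ENNReal.coe_ne_top) h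
    rw [ENNReal.toReal_mul, ENNReal.toReal_div, ← ENNReal.toReal_rpow, ← ENNReal.toReal_rpow] at h2
    simpa using h2
  have h3 : ‖z‖ ^ q ≤ (B.toReal / ε) * (a : ℝ) ^ q := by
    have h4 : ‖z‖ ^ q = (B.toReal / ε) * (((ε : ℝ) / B.toReal) * ‖z‖ ^ q) := by field_simp
    rw [h4]
    gcongr
  have h5 : ‖z‖ = (‖z‖ ^ q) ^ (1 / q) := by
    rw [← Real.rpow_mul (norm_nonneg _), mul_one_div_cancel hq.ne', Real.rpow_one]
  have h6 : (a : ℝ) = ((a : ℝ) ^ q) ^ (1 / q) := by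
    rw [← Real.rpow_mul a.coe_nonneg, mul_one_div_cancel hq.ne', Real.rpow_one]
  calc ‖z‖ = (‖z‖ ^ q) ^ (1 / q) := h5
    _ ≤ ((B.toReal / ε) * (a : ℝ) ^ q) ^ (1 / q) :=
        Real.rpow_le_rpow (by positivity) h3 (by positivity)
    _ = ((B.toReal / ε) ^ (1 / q)) * ((a : ℝ) ^ q) ^ (1 / q) :=
        Real.mul_rpow (by positivity) (by positivity)
    _ = ((B.toReal / ε) ^ (1 / q)) * a := by rw [← h6]

/-- gliding hump -/
theorem hump {O : Set (E 2)} {q : ℝ} (hq : 0 < q)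
    (h : ∀ a : E 2 → ℝ≥0, Measurable a → (∫⁻ x in O, (a x : ℝ≥0∞) ^ q) ≠ ∞ → GoodMod O q a) :
    Est O q := by
  by_contra hcon
  obtain ⟨ε, hε0, hε1⟩ := ENNReal.exists_pos_sum_of_countable (ε := 1) one_ne_zero ℕ
  have hex : ∀ j : ℕ, ∃ f : E 2 → ℂ, Measurable f ∧ (∫⁻ x in O, ‖f x‖ₑ ^ q) ≠ ∞ ∧
      ((((j : ℝ≥0) + 1) / ε j : ℝ≥0) : ℝ≥0∞) * ∫⁻ x in O, ‖f x‖ₑ ^ q <
        ∫⁻ ξ, ‖ext O f ξ‖ₑ ^ q := fun j => by
    by_contra hc
    push Not at hc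
    exact hcon ⟨((j : ℝ≥0) + 1) / ε j, fun f hf hfin => hc f hf hfin⟩
  choose f hf hfin hbig using hex
  have hB0 : ∀ j, (∫⁻ x in O, ‖f j x‖ₑ ^ q) ≠ 0 := fun j h0 => by
    have h1 : (fun x => ‖f j x‖ₑ ^ q) =ᵐ[volume.restrict O] 0 :=
      (lintegral_eq_zero_iff ((hf j).enorm.pow_const q)).1 h0
    have h2 : ∀ ξ, ext O (f j) ξ = 0 := fun ξ => by
      unfold ext
      rw [integral_eq_zero_of_ae]
      filter_upwards [h1] with x hx
      have h3 : ‖f j x‖ₑ ^ q = 0 := hx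
      rw [ENNReal.rpow_eq_zero_iff_of_pos hq, enorm_eq_zero] at h3
      simp [h3]
    have h4 := hbig j
    simp [h2, ENNReal.zero_rpow_of_pos hq] at h4
  obtain ⟨a, ham, hafin, hdom⟩ := combine (O := O) hq (fun j x => ‖f j x‖ₑ)
    (fun j => (hf j).enorm) ε hε1
  obtain ⟨C, hC⟩ := h a ham hafin
  obtain ⟨N, hN⟩ := exists_nat_ge C
  set B : ℝ≥0∞ := ∫⁻ x in O, ‖f N x‖ₑ ^ q with hB
  have hBr : 0 < B.toReal := ENNReal.toReal_pos (hB0 N) (hfin N)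
  have hεN : (0 : ℝ) < ε N := hε0 N
  set d : ℝ := (B.toReal / ε N) ^ (1 / q) with hd
  have hd0 : 0 < d := by positivity
  obtain ⟨g, hgm, hg1, -, hext⟩ := dominate (O := O) ham (hf N) hd0 (by
    filter_upwards [hdom N] with x hx
    exact dom_real hq (hε0 N) (hB0 N) (hfin N) hx)
  have h1 := ext_scale hq.le hd0 hext
  have hdq : ENNReal.ofReal (d ^ q) = B / (ε N : ℝ≥0∞) := by
    rw [hd, ← Real.rpow_mul (by positivity), one_div, inv_mul_cancel₀ hq.ne', Real.rpow_one,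
      ENNReal.ofReal_div_of_pos hεN, ENNReal.ofReal_toReal (hfin N), ENNReal.ofReal_coe_nnreal]
  have h2 := hbig N
  rw [h1, hdq] at h2
  have hε' : (ε N : ℝ≥0∞) ≠ 0 := by exact_mod_cast (hε0 N).ne'
  have h3 : (B / (ε N : ℝ≥0∞)) * ∫⁻ ξ, ‖ext O (fun x => (a x : ℂ) * g x) ξ‖ₑ ^ q ≤
      (B / (ε N : ℝ≥0∞)) * C := by
    gcongr
    exact hC g hgm hg1
  have h4 := h2.trans_le h3
  have h5 : ((((N : ℝ≥0) + 1) / ε N : ℝ≥0) : ℝ≥0∞) * B = (B / (ε N : ℝ≥0∞)) * ((N : ℝ≥0∞) + 1) := by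
    rw [ENNReal.coe_div (hε0 N).ne', ENNReal.div_eq_inv_mul, ENNReal.div_eq_inv_mul]
    push_cast
    ring
  rw [h5] at h4
  have hCN : (C : ℝ≥0∞) ≤ (N : ℝ≥0∞) + 1 := by
    have : (C : ℝ≥0∞) ≤ (N : ℝ≥0∞) := by exact_mod_cast hN
    exact this.trans le_self_add
  exact absurd h4 (not_lt.2 (mul_le_mul_right hCN _))

end Pool.Agent.Helper184.PH.P3
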