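import Pool.Agent.Helper184.PH.Main

/-!
Multiplication of the amplitude by a function with integrable Fourier transform.
-/

open MeasureTheory Set Filter Metric
open scoped ENNReal NNReal Topology BoundedContinuousFunction

namespace Pool.Agent.Helper184.PH

/-- Jensen's inequality for the power `q` and a finite measure -/
theorem jensen {Z : Type*} [MeasurableSpace Z] (ρ : Measure Z) {q : ℝ} (hq : 1 ≤ q) (F : Z → ℂ)
    (hF : Measurable F) :
    (∫⁻ z, ‖F z‖ₑ ∂ρ) ^ q ≤ (∫⁻ z, ‖F z‖ₑ ^ q ∂ρ) * ρ univ ^ (q - 1) := by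
  have hq0 : 0 < q := by linarith
  have h1 := eLpNorm_le_eLpNorm_mul_rpow_measure_univ (p := 1) (q := ENNReal.ofReal q) (μ := ρ)
    (f := F) (by rw [← ENNReal.ofReal_one]; exact ENNReal.ofReal_le_ofReal hq)
    hF.aestronglyMeasurable
  rw [eLpNorm_one_eq_lintegral_enorm, eLpNorm_eq_lintegral_rpow_enorm_toReal
    (by simpa using hq0) ENNReal.ofReal_ne_top, ENNReal.toReal_ofReal hq0.le] at h1
  have h2 := ENNReal.rpow_le_rpow h1 hq0.le
  rw [ENNReal.mul_rpow_of_nonneg _ _ hq0.le, ← ENNReal.rpow_mul, ← ENNReal.rpow_mul] at h2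
  have e1 : 1 / q * q = 1 := by field_simp
  have e2 : (1 / (1 : ℝ≥0∞).toReal - 1 / q) * q = q - 1 := by
    rw [ENNReal.toReal_one]; field_simp
  rw [e1, e2, ENNReal.rpow_one] at h2
  exact h2

variable {X : Type*} [MetricSpace X] [SecondCountableTopology X] [MeasurableSpace X] [BorelSpace X]
variable {V : Type*} [NormedAddCommGroup V] [SecondCountableTopology V]
  [MeasurableSpace V] [BorelSpace V]
variable {ν : Measure X} [IsFiniteMeasure ν] {μ : Measure V} {K : X → V → ℂ}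
variable {Z : Type*} [NormedAddCommGroup Z] [SecondCountableTopology Z] [MeasurableSpace Z]
  [BorelSpace Z] {ρ : Measure Z}

theorem J_shift [μ.IsAddRightInvariant] {q : ℝ} (F : V → ℂ) (v : V) {R s : ℝ} (hv : ‖v‖ ≤ s) :
    ∫⁻ y in closedBall (0 : V) R, ‖F (y + v)‖ₑ ^ q ∂μ ≤ J μ q F (R + s) := by
  unfold J
  rw [← lintegral_indicator isClosed_closedBall.measurableSet,
    ← lintegral_indicator isClosed_closedBall.measurableSet,
    ← lintegral_add_right_eq_self (fun y => (closedBall (0 : V) (R + s)).indicator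
      (fun y => ‖F y‖ₑ ^ q) y) v]
  refine lintegral_mono fun y => ?_
  by_cases hy : y ∈ closedBall (0 : V) R
  · have hy2 : y + v ∈ closedBall (0 : V) (R + s) := by
      rw [mem_closedBall_zero_iff] at hy ⊢
      exact (norm_add_le _ _).trans (add_le_add hy hv)
    rw [indicator_of_mem hy, indicator_of_mem hy2]
  · rw [indicator_of_notMem hy]; exact bot_le

theorem mult [μ.IsAddRightInvariant] [SFinite μ] [SFinite ρ]
    (hK : Continuous fun p : X × V => K p.1 p.2) (hK1 : ∀ x y, ‖K x y‖ ≤ 1)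
    (ι : Z → V) (hι : Continuous ι) (hι1 : ∀ z, ‖ι z‖ ≤ ‖z‖)
    (hKι : ∀ x y z, K x (y + ι z) = K x y * K x (ι z))
    {k : Z → ℂ} (hk : Continuous k) (hki : Integrable k ρ) {q τ : ℝ} (hq : 1 ≤ q) (hτ : 0 ≤ τ)
    (hkτ : (∫⁻ z, ‖k z‖ₑ * ENNReal.ofReal ((1 + ‖z‖) ^ τ) ∂ρ) ≠ ∞)
    {h : X → ℂ} (hrep : ∀ x, h x = ∫ z, k z * K x (ι z) ∂ρ)
    {f : X → ℂ} (hf : Measurable f) (hf1 : ∀ x, ‖f x‖ ≤ 1) (hgd : Gd μ q τ (T ν K f)) :
    Gd μ q τ (T ν K fun x => h x * f x) := by
  obtain ⟨C, hC⟩ := hgd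
  have hq0 : 0 ≤ q := by linarith
  set A : ℝ≥0∞ := ∫⁻ z, ‖k z‖ₑ ∂ρ with hA
  have hAt : A ≠ ∞ := hki.2.ne
  have hTc : Continuous (T ν K f) := T_cont hK hK1 hf hf1
  have hkm : Measurable fun z => ‖k z‖ₑ := hk.measurable.enorm
  -- the representation
  have hTrep : ∀ y, T ν K (fun x => h x * f x) y = ∫ z, k z * T ν K f (y + ι z) ∂ρ := fun y => by
    have e1 : T ν K (fun x => h x * f x) y =
        ∫ x, ∫ z, k z * (f x * K x (y + ι z)) ∂ρ ∂ν := by
      unfold T
      refine integral_congr_ae (Eventually.of_forall fun x => ?_)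
      show h x * f x * K x y = ∫ z, k z * (f x * K x (y + ι z)) ∂ρ
      rw [hrep x, mul_assoc, ← integral_mul_const]
      refine integral_congr_ae (Eventually.of_forall fun z => ?_)
      show k z * K x (ι z) * (f x * K x y) = k z * (f x * K x (y + ι z))
      rw [hKι]; ring
    rw [e1, integral_integral_swap]
    · refine integral_congr_ae (Eventually.of_forall fun z => ?_)
      show ∫ x, k z * (f x * K x (y + ι z)) ∂ν = k z * T ν K f (y + ι z)
      rw [integral_const_mul]; rfl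
    · refine Integrable.mono' (g := fun p : X × Z => ‖k p.2‖) (hki.norm.comp_snd ν) ?_ ?_
      · have hc : Continuous fun p : X × Z => K p.1 (y + ι p.2) :=
          hK.comp (by fun_prop : Continuous fun p : X × Z => (p.1, y + ι p.2))
        exact ((hk.comp continuous_snd).measurable.mul
          ((hf.comp measurable_fst).mul hc.measurable)).aestronglyMeasurable
      · refine Eventually.of_forall fun p => ?_
        show ‖k p.2 * (f p.1 * K p.1 (y + ι p.2))‖ ≤ ‖k p.2‖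
        rw [norm_mul, norm_mul]
        calc ‖k p.2‖ * (‖f p.1‖ * ‖K p.1 (y + ι p.2)‖) ≤ ‖k p.2‖ * (1 * 1) := by
              gcongr
              · exact hf1 _
              · exact hK1 _ _
          _ = ‖k p.2‖ := by ring
  -- pointwise bound
  have hpt : ∀ y, ‖T ν K (fun x => h x * f x) y‖ₑ ^ q ≤
      (∫⁻ z, ‖k z‖ₑ * ‖T ν K f (y + ι z)‖ₑ ^ q ∂ρ) * A ^ (q - 1) := fun y => by
    have hm : Measurable fun z => T ν K f (y + ι z) :=
      (hTc.comp (by fun_prop : Continuous fun z => y + ι z)).measurable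
    have h1 : ‖T ν K (fun x => h x * f x) y‖ₑ ≤ ∫⁻ z, ‖k z‖ₑ * ‖T ν K f (y + ι z)‖ₑ ∂ρ := by
      rw [hTrep y]
      refine (enorm_integral_le_lintegral_enorm _).trans_eq ?_
      refine lintegral_congr fun z => ?_
      rw [enorm_mul]
    have h2 := jensen (ρ.withDensity fun z => ‖k z‖ₑ) hq _ hm
    rw [lintegral_withDensity_eq_lintegral_mul _ hkm hm.enorm,
      lintegral_withDensity_eq_lintegral_mul _ hkm (hm.enorm.pow_const q),
      withDensity_apply _ MeasurableSet.univ, setLIntegral_univ] at h2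
    exact (ENNReal.rpow_le_rpow h1 hq0).trans h2
  set B : ℝ≥0∞ := ∫⁻ z, ‖k z‖ₑ * ENNReal.ofReal ((1 + ‖z‖) ^ τ) ∂ρ with hB
  set D : ℝ≥0∞ := A ^ (q - 1) * (C * B) with hD
  have hDt : D ≠ ∞ := ENNReal.mul_ne_top (ENNReal.rpow_ne_top_of_nonneg (by linarith) hAt)
    (ENNReal.mul_ne_top ENNReal.coe_ne_top hkτ)
  refine ⟨D.toNNReal, fun R hR => ?_⟩
  rw [ENNReal.coe_toNNReal hDt]
  have hR0 : 0 < R := by linarith
  have hmeas : Measurable fun p : V × Z => ‖k p.2‖ₑ * ‖T ν K f (p.1 + ι p.2)‖ₑ ^ q := by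
    have h3 : Continuous fun p : V × Z => T ν K f (p.1 + ι p.2) :=
      hTc.comp (by fun_prop : Continuous fun p : V × Z => p.1 + ι p.2)
    exact ((hk.comp continuous_snd).measurable.enorm).mul (h3.measurable.enorm.pow_const q)
  calc J μ q (T ν K fun x => h x * f x) R
      ≤ ∫⁻ y in closedBall (0 : V) R,
          (∫⁻ z, ‖k z‖ₑ * ‖T ν K f (y + ι z)‖ₑ ^ q ∂ρ) * A ^ (q - 1) ∂μ :=
        lintegral_mono fun y => hpt y
    _ = (∫⁻ y in closedBall (0 : V) R, ∫⁻ z, ‖k z‖ₑ * ‖T ν K f (y + ι z)‖ₑ ^ q ∂ρ ∂μ) *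
          A ^ (q - 1) := lintegral_mul_const' _ _
            (ENNReal.rpow_ne_top_of_nonneg (by linarith) hAt)
    _ = (∫⁻ z, ∫⁻ y in closedBall (0 : V) R, ‖k z‖ₑ * ‖T ν K f (y + ι z)‖ₑ ^ q ∂μ ∂ρ) *
          A ^ (q - 1) := by
        rw [lintegral_lintegral_swap hmeas.aemeasurable]
    _ ≤ (∫⁻ z, ‖k z‖ₑ * (C * (ENNReal.ofReal (R ^ τ) * ENNReal.ofReal ((1 + ‖z‖) ^ τ))) ∂ρ) *
          A ^ (q - 1) := by
        gcongr with z
        rw [lintegral_const_mul' _ _ enorm_ne_top]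
        gcongr
        refine (J_shift (T ν K f) (ι z) (hι1 z)).trans ((hC _ (by
          have := norm_nonneg z; linarith)).trans ?_)
        rw [← ENNReal.ofReal_mul (by positivity), ← Real.mul_rpow hR0.le (by positivity)]
        gcongr
        have := norm_nonneg z
        nlinarith
    _ = D * ENNReal.ofReal (R ^ τ) := by
        have e1 : (∫⁻ z, ‖k z‖ₑ * (C * (ENNReal.ofReal (R ^ τ) *
            ENNReal.ofReal ((1 + ‖z‖) ^ τ))) ∂ρ) = (C * ENNReal.ofReal (R ^ τ)) * B := by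
          rw [hB, ← lintegral_const_mul' _ _ (ENNReal.mul_ne_top ENNReal.coe_ne_top
            ENNReal.ofReal_ne_top)]
          refine lintegral_congr fun z => ?_
          ring
        rw [e1, hD]; ring

end Pool.Agent.Helper184.PH
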