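import Pool.Agent.Helper184.PH.Bump

/-!
The extension operator of the paraboloid: from a small cube to the whole cube.
-/

open MeasureTheory Set Filter Metric
open scoped ENNReal NNReal Topology BoundedContinuousFunction

namespace Pool.Agent.Helper184.PH

/-- Euclidean space `ℝ^n` -/
abbrev E (n : ℕ) := EuclideanSpace ℝ (Fin n)

variable {n : ℕ}

/-- the cube `[-1,1]^n` -/
def cube (n : ℕ) : Set (E n) := {ξ | ∀ i, |ξ i| ≤ 1}

/-- the kernel of the extension operator -/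
noncomputable def KP (ξ : E n) (x : E n × ℝ) : ℂ :=
  Complex.exp ((2 * Real.pi * (inner ℝ ξ x.1 + ‖ξ‖ ^ 2 * x.2) : ℝ) * Complex.I)

theorem KP_cont : Continuous fun p : E n × (E n × ℝ) => KP p.1 p.2 := by
  unfold KP; fun_prop

theorem KP_norm (ξ : E n) (x : E n × ℝ) : ‖KP ξ x‖ ≤ 1 := by
  unfold KP; rw [Complex.norm_exp_ofReal_mul_I]

theorem cube_closed : IsClosed (cube n) := by
  have : cube n = ⋂ i, {ξ : E n | |ξ i| ≤ 1} := by ext; simp [cube]
  rw [this]
  exact isClosed_iInter fun i => isClosed_le (by fun_prop) continuous_const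

theorem cube_norm {ξ : E n} (h : ξ ∈ cube n) : ‖ξ‖ ≤ Real.sqrt n := by
  rw [EuclideanSpace.norm_eq]
  apply Real.sqrt_le_sqrt
  calc ∑ i, ‖ξ i‖ ^ 2 ≤ ∑ _i : Fin n, (1 : ℝ) := Finset.sum_le_sum fun i _ => by
        have := h i
        rw [Real.norm_eq_abs, sq_abs]
        nlinarith [abs_le.1 this]
    _ = n := by simp

instance cube_finite : IsFiniteMeasure ((volume : Measure (E n)).restrict (cube n)) := by
  refine ⟨?_⟩
  rw [Measure.restrict_apply_univ]
  refine (measure_mono fun ξ hξ => ?_).trans_lt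
    (measure_closedBall_lt_top (x := (0 : E n)) (r := Real.sqrt n))
  exact mem_closedBall_zero_iff.2 (cube_norm hξ)

/-- the linear map `(x, t) ↦ (l (x + 2 t u), l² t)` -/
noncomputable def Lm (u : E n) (l : ℝ) (hl : l ≠ 0) : (E n × ℝ) ≃ₗ[ℝ] (E n × ℝ) where
  toFun v := (l • (v.1 + (2 * v.2) • u), l ^ 2 * v.2)
  invFun v := (l⁻¹ • v.1 - (2 * (l⁻¹ ^ 2 * v.2)) • u, l⁻¹ ^ 2 * v.2)
  map_add' v w := by
    refine Prod.ext ?_ ?_
    · simp only [Prod.fst_add, Prod.snd_add]; module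
    · simp only [Prod.snd_add]; ring
  map_smul' c v := by
    refine Prod.ext ?_ ?_
    · simp only [Prod.smul_fst, Prod.smul_snd, smul_eq_mul, RingHom.id_apply]; module
    · simp only [Prod.smul_snd, smul_eq_mul, RingHom.id_apply]; ring
  left_inv v := by
    refine Prod.ext ?_ ?_
    · show l⁻¹ • (l • (v.1 + (2 * v.2) • u)) - (2 * (l⁻¹ ^ 2 * (l ^ 2 * v.2))) • u = v.1
      have e1 : l⁻¹ ^ 2 * (l ^ 2 * v.2) = v.2 := by field_simp
      rw [e1, smul_smul, inv_mul_cancel₀ hl, one_smul]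
      abel
    · show l⁻¹ ^ 2 * (l ^ 2 * v.2) = v.2
      field_simp
  right_inv v := by
    refine Prod.ext ?_ ?_
    · show l • ((l⁻¹ • v.1 - (2 * (l⁻¹ ^ 2 * v.2)) • u) + (2 * (l⁻¹ ^ 2 * v.2)) • u) = v.1
      rw [sub_add_cancel, smul_smul, mul_inv_cancel₀ hl, one_smul]
    · show l ^ 2 * (l⁻¹ ^ 2 * v.2) = v.2
      field_simp

theorem KP_galilei (u η : E n) (l : ℝ) (hl : l ≠ 0) (v : E n × ℝ) :
    KP (u + l • η) v = KP u v * KP η (Lm u l hl v) := by
  unfold KP
  rw [← Complex.exp_add]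
  congr 1
  have e1 : inner ℝ (u + l • η) v.1 + ‖u + l • η‖ ^ 2 * v.2 =
      (inner ℝ u v.1 + ‖u‖ ^ 2 * v.2) +
      (inner ℝ η (l • (v.1 + (2 * v.2) • u)) + ‖η‖ ^ 2 * (l ^ 2 * v.2)) := by
    rw [@norm_add_sq_real, inner_add_left, inner_smul_left, inner_smul_right, inner_smul_right,
      inner_add_right, inner_smul_right, norm_smul, mul_pow, Real.norm_eq_abs, sq_abs,
      real_inner_comm u η]
    simp only [conj_trivial]
    ring
  have e2 : (Lm u l hl v).1 = l • (v.1 + (2 * v.2) • u) := rfl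
  have e3 : (Lm u l hl v).2 = l ^ 2 * v.2 := rfl
  rw [e2, e3, e1]
  push_cast
  ring

/-- the rescaled function -/
noncomputable def resc (u : E n) (l : ℝ) (f : E n → ℂ) : E n → ℂ :=
  {ξ | l⁻¹ • (ξ - u) ∈ cube n}.indicator fun ξ => f (l⁻¹ • (ξ - u))

theorem resc_meas (u : E n) (l : ℝ) {f : E n → ℂ} (hf : Measurable f) :
    Measurable (resc u l f) := by
  unfold resc
  have h1 : Continuous fun ξ : E n => l⁻¹ • (ξ - u) := by fun_prop
  exact (hf.comp h1.measurable).indicator (cube_closed.preimage h1).measurableSet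

theorem T_resc {u : E n} {l : ℝ} (hl : 0 < l)
    (hsub : ∀ ξ : E n, l⁻¹ • (ξ - u) ∈ cube n → ξ ∈ cube n) (f : E n → ℂ) (v : E n × ℝ) :
    T ((volume : Measure (E n)).restrict (cube n)) KP (resc u l f) v =
      KP u v * ((l ^ n : ℝ) : ℂ) *
        T ((volume : Measure (E n)).restrict (cube n)) KP f (Lm u l hl.ne' v) := by
  unfold T
  set G : E n → ℂ := (cube n).indicator fun η => f η * KP η (Lm u l hl.ne' v) with hG
  have h1 : ∫ ξ in cube n, resc u l f ξ * KP ξ v = ∫ ξ, KP u v * G (l⁻¹ • (ξ - u)) := by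
    rw [← integral_indicator cube_closed.measurableSet]
    refine integral_congr_ae (Eventually.of_forall fun ξ => ?_)
    show (cube n).indicator (fun ξ => resc u l f ξ * KP ξ v) ξ = KP u v * G (l⁻¹ • (ξ - u))
    by_cases hξ : l⁻¹ • (ξ - u) ∈ cube n
    · rw [indicator_of_mem (hsub ξ hξ), hG, indicator_of_mem hξ]
      have e1 : resc u l f ξ = f (l⁻¹ • (ξ - u)) := by
        unfold resc; rw [indicator_of_mem]; exact hξ
      have e2 : u + l • (l⁻¹ • (ξ - u)) = ξ := by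
        rw [smul_smul, mul_inv_cancel₀ hl.ne', one_smul]; abel
      have e3 := KP_galilei u (l⁻¹ • (ξ - u)) l hl.ne' v
      rw [e2] at e3
      rw [e1, e3]; ring
    · rw [hG, indicator_of_notMem hξ, mul_zero]
      have e1 : resc u l f ξ = 0 := by
        unfold resc; rw [indicator_of_notMem]; exact hξ
      by_cases hc : ξ ∈ cube n
      · rw [indicator_of_mem hc, e1, zero_mul]
      · rw [indicator_of_notMem hc]
  rw [h1, integral_const_mul, integral_sub_right_eq_self (fun ξ => G (l⁻¹ • ξ)) u,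
    Measure.integral_comp_inv_smul]
  have h2 : ∫ ξ, G ξ = ∫ ξ in cube n, f ξ * KP ξ (Lm u l hl.ne' v) :=
    integral_indicator cube_closed.measurableSet
  rw [h2]
  simp only [finrank_euclideanSpace, Fintype.card_fin]
  rw [abs_of_pos (pow_pos hl n), Complex.real_smul]
  ring

instance vol_haar : (volume : Measure (E n × ℝ)).IsAddHaarMeasure := by
  rw [Measure.volume_eq_prod]; infer_instance

/-- growth of the original function in terms of the rescaled one -/
theorem J_resc {q τ : ℝ} (hq : 0 ≤ q) (hτ : 0 ≤ τ) {u : E n} {l : ℝ} (hl : 0 < l)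
    (hsub : ∀ ξ : E n, l⁻¹ • (ξ - u) ∈ cube n → ξ ∈ cube n) {C : ℝ≥0} :
    ∃ C' : ℝ≥0, ∀ f : E n → ℂ, Measurable f → (∀ ξ, ‖f ξ‖ ≤ 1) →
      (∀ R : ℝ, 1 ≤ R → J volume q (T ((volume : Measure (E n)).restrict (cube n)) KP (resc u l f)) R
        ≤ C * ENNReal.ofReal (R ^ τ)) →
      ∀ R : ℝ, 1 ≤ R → J volume q (T ((volume : Measure (E n)).restrict (cube n)) KP f) R
        ≤ C' * ENNReal.ofReal (R ^ τ) := by
  set L := Lm u l hl.ne' with hL
  set b : ℝ := max 1 ‖((L.toContinuousLinearEquiv.symm : (E n × ℝ) ≃L[ℝ] (E n × ℝ)) :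
    (E n × ℝ) →L[ℝ] (E n × ℝ))‖ with hb
  have hb1 : 1 ≤ b := le_max_left _ _
  have hLb : ∀ v, ‖v‖ ≤ b * ‖L v‖ := fun v => by
    have h1 := ((L.toContinuousLinearEquiv.symm : (E n × ℝ) ≃L[ℝ] (E n × ℝ)) :
      (E n × ℝ) →L[ℝ] (E n × ℝ)).le_opNorm (L v)
    have h2 : ((L.toContinuousLinearEquiv.symm : (E n × ℝ) ≃L[ℝ] (E n × ℝ)) :
      (E n × ℝ) →L[ℝ] (E n × ℝ)) (L v) = v := L.symm_apply_apply v
    rw [h2] at h1
    exact h1.trans (by gcongr; exact le_max_right _ _)
  have hdet : LinearMap.det (L : (E n × ℝ) →ₗ[ℝ] (E n × ℝ)) ≠ 0 := (LinearEquiv.isUnit_det' L).ne_zero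
  set c : ℝ≥0∞ := ENNReal.ofReal |(LinearMap.det (L : (E n × ℝ) →ₗ[ℝ] (E n × ℝ)))⁻¹| with hc
  have hc0 : c ≠ 0 := by
    rw [hc]; simpa using hdet
  have hct : c ≠ ∞ := ENNReal.ofReal_ne_top
  have hmap : Measure.map (L : (E n × ℝ) →ₗ[ℝ] (E n × ℝ)) (volume : Measure (E n × ℝ)) =
      c • (volume : Measure (E n × ℝ)) := Measure.map_linearMap_addHaar_eq_smul_addHaar _ hdet
  have hLm : Measurable (L : (E n × ℝ) →ₗ[ℝ] (E n × ℝ)) :=
    (LinearMap.continuous_of_finiteDimensional _).measurable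
  set D : ℝ≥0∞ := c⁻¹ * (ENNReal.ofReal (((l ^ n)⁻¹) ^ q) * (C * ENNReal.ofReal (b ^ τ))) with hD
  have hDt : D ≠ ∞ := ENNReal.mul_ne_top (ENNReal.inv_ne_top.2 hc0)
    (ENNReal.mul_ne_top ENNReal.ofReal_ne_top
      (ENNReal.mul_ne_top ENNReal.coe_ne_top ENNReal.ofReal_ne_top))
  refine ⟨D.toNNReal, fun f hf hf1 hC R hR => ?_⟩
  rw [ENNReal.coe_toNNReal hDt]
  have hR0 : 0 < R := by linarith
  set F := T ((volume : Measure (E n)).restrict (cube n)) KP f with hF
  set F' := T ((volume : Measure (E n)).restrict (cube n)) KP (resc u l f) with hF'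
  have hFm : Measurable F := (T_cont KP_cont KP_norm hf hf1).measurable
  have hln : 0 < l ^ n := pow_pos hl n
  have hFF : ∀ v, ‖F (L v)‖ ≤ (l ^ n)⁻¹ * ‖F' v‖ := fun v => by
    have e1 : F' v = KP u v * ((l ^ n : ℝ) : ℂ) * F (L v) := T_resc hl hsub f v
    have e2 : ‖KP u v‖ = 1 := by unfold KP; rw [Complex.norm_exp_ofReal_mul_I]
    rw [e1, norm_mul, norm_mul, e2, Complex.norm_real, Real.norm_of_nonneg hln.le, one_mul,
      ← mul_assoc, inv_mul_cancel₀ hln.ne', one_mul]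
  have h1 : c * J volume q F R ≤ J volume q (fun v => F (L v)) (b * R) := by
    have hgm : Measurable ((closedBall (0 : E n × ℝ) R).indicator fun y => ‖F y‖ₑ ^ q) :=
      (hFm.enorm.pow_const q).indicator isClosed_closedBall.measurableSet
    have h2 := lintegral_map (μ := (volume : Measure (E n × ℝ))) hgm hLm
    rw [hmap, lintegral_smul_measure] at h2
    unfold J
    rw [← lintegral_indicator isClosed_closedBall.measurableSet,
      ← lintegral_indicator isClosed_closedBall.measurableSet]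
    refine (le_of_eq h2).trans (lintegral_mono fun v => ?_)
    show (closedBall (0 : E n × ℝ) R).indicator (fun y => ‖F y‖ₑ ^ q) (L v) ≤
      (closedBall (0 : E n × ℝ) (b * R)).indicator (fun y => ‖F (L y)‖ₑ ^ q) v
    by_cases hv : L v ∈ closedBall (0 : E n × ℝ) R
    · have hv2 : v ∈ closedBall (0 : E n × ℝ) (b * R) := by
        rw [mem_closedBall_zero_iff] at hv ⊢
        exact (hLb v).trans (by gcongr)
      rw [indicator_of_mem hv, indicator_of_mem hv2]
    · rw [indicator_of_notMem hv]; exact bot_le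
  have hbR : 1 ≤ b * R := by nlinarith
  have h3 : J volume q (fun v => F (L v)) (b * R) ≤
      ENNReal.ofReal (((l ^ n)⁻¹) ^ q) * (C * ENNReal.ofReal ((b * R) ^ τ)) :=
    (J_scale hq (inv_nonneg.2 hln.le) hFF (b * R)).trans (by gcongr; exact hC _ hbR)
  calc J volume q F R = c⁻¹ * (c * J volume q F R) := by
        rw [← mul_assoc, ENNReal.inv_mul_cancel hc0 hct, one_mul]
    _ ≤ c⁻¹ * (ENNReal.ofReal (((l ^ n)⁻¹) ^ q) * (C * ENNReal.ofReal ((b * R) ^ τ))) := by
        exact mul_le_mul_right (h1.trans h3) _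
    _ = D * ENNReal.ofReal (R ^ τ) := by
        rw [Real.mul_rpow (by linarith) hR0.le, ENNReal.ofReal_mul (by positivity), hD]
        ring

end Pool.Agent.Helper184.PH
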