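import Pool.Agent.Helper184.PH.Para

/-!
The zero-one law for typical phases: paraboloid.
-/

open MeasureTheory Set Filter Metric
open scoped ENNReal NNReal Topology BoundedContinuousFunction

namespace Pool.Agent.Helper184.PH

variable {n : ℕ}

/-- the extension operator -/
noncomputable abbrev TP (f : E n → ℂ) : E n × ℝ → ℂ :=
  T ((volume : Measure (E n)).restrict (cube n)) KP f

/-- the extension estimate with loss `R ^ τ` -/
def Est (n : ℕ) (q τ : ℝ) : Prop :=
  ∃ C : ℝ≥0, ∀ f : E n → ℂ, Measurable f → (∀ ξ, ‖f ξ‖ ≤ 1) → ∀ R : ℝ, 1 ≤ R →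
    J volume q (TP f) R ≤ C * ENNReal.ofReal (R ^ τ)

/-- the open cube -/
def ocube (n : ℕ) : Set (E n) := {ξ | ∀ i, |ξ i| < 1}

theorem ocube_open : IsOpen (ocube n) := by
  have : ocube n = ⋂ i, {ξ : E n | |ξ i| < 1} := by ext; simp [ocube]
  rw [this]
  exact isOpen_iInter_of_finite fun i => isOpen_lt (by fun_prop) continuous_const

theorem ocube_sub {ξ : E n} (h : ξ ∈ ocube n) : ξ ∈ cube n := fun i => (h i).le

theorem local_global {q τ : ℝ} (hq : 0 ≤ q) (hτ : 0 ≤ τ) {h : E n → ℂ} {w u : E n} {r : ℝ}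
    (hu : u ∈ ocube n) (huw : u ∈ ball w (r / 2)) (h1 : ∀ x ∈ closedBall w (r / 2), h x = 1)
    (hC : ∃ C : ℝ≥0, ∀ f : E n → ℂ, Measurable f → (∀ x, ‖f x‖ ≤ 1) → ∀ R : ℝ, 1 ≤ R →
      J volume q (TP fun x => h x * f x) R ≤ C * ENNReal.ofReal (R ^ τ)) : Est n q τ := by
  obtain ⟨C, hC⟩ := hC
  have hO : IsOpen (ocube n ∩ ball w (r / 2)) := ocube_open.inter isOpen_ball
  obtain ⟨ε, hε, hball⟩ := Metric.isOpen_iff.1 hO u ⟨hu, huw⟩
  set l : ℝ := ε / (Real.sqrt n + 1) with hl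
  have hs := Real.sqrt_nonneg (n : ℝ)
  have hl0 : 0 < l := by positivity
  have hsub : ∀ ξ : E n, l⁻¹ • (ξ - u) ∈ cube n → ξ ∈ ocube n ∩ ball w (r / 2) := fun ξ hξ => by
    apply hball
    rw [mem_ball, dist_eq_norm]
    have h2 := cube_norm hξ
    rw [norm_smul, norm_inv, Real.norm_of_nonneg hl0.le, inv_mul_le_iff₀ hl0] at h2
    calc ‖ξ - u‖ ≤ l * Real.sqrt n := h2
      _ < l * (Real.sqrt n + 1) := by gcongr; linarith
      _ = ε := by rw [hl]; field_simp
  obtain ⟨C', hC'⟩ := J_resc hq hτ hl0 (fun ξ hξ => ocube_sub (hsub ξ hξ).1) (C := C) (u := u)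
  refine ⟨C', fun f hf hf1 R hR => hC' f hf hf1 (fun R hR => ?_) R hR⟩
  have hr1 : ∀ ξ, ‖resc u l f ξ‖ ≤ 1 := fun ξ => by
    unfold resc
    by_cases hξ : ξ ∈ {ξ | l⁻¹ • (ξ - u) ∈ cube n}
    · rw [indicator_of_mem hξ]; exact hf1 _
    · rw [indicator_of_notMem hξ, norm_zero]; norm_num
  have h3 := hC (resc u l f) (resc_meas u l hf) hr1 R hR
  have h4 : (fun x => h x * resc u l f x) = resc u l f := by
    funext x
    by_cases hx : x ∈ {ξ | l⁻¹ • (ξ - u) ∈ cube n}
    · rw [h1 x (ball_subset_closedBall (hsub x hx).2), one_mul]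
    · unfold resc; rw [indicator_of_notMem hx, mul_zero]
  rw [h4] at h3
  exact h3

theorem ph_ind_norm (U : Set (E n)) (φ : E n →ᵇ ℝ) (x : E n) : ‖U.indicator (ph φ) x‖ ≤ 1 := by
  by_cases hx : x ∈ U
  · rw [indicator_of_mem hx, ph_norm]
  · rw [indicator_of_notMem hx, norm_zero]; norm_num

/-- zero-one law -/
theorem zero_one {q τ : ℝ} (hq : 1 ≤ q) (hτ : 0 ≤ τ) (hnot : ¬ Est n q τ) :
    ∀ᶠ φ : E n →ᵇ ℝ in residual _, ∀ U : Set (E n), IsOpen U → (U ∩ cube n).Nonempty →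
      ¬ Gd volume q τ (TP (U.indicator (ph φ))) := by
  have hr0 : ∀ k : ℕ, (0 : ℝ) < 1 / ((k : ℝ) + 1) := fun k => by positivity
  choose h k hhc hkc hki hkτ hh1 hhone hhzero hrep using
    fun (p : ℕ × ℕ) => bump (TopologicalSpace.denseSeq (E n) p.1) (hr0 p.2)
  have key : ∀ p : ℕ × ℕ, ∀ᶠ φ : E n →ᵇ ℝ in residual _,
      (∃ u ∈ ocube n, u ∈ ball (TopologicalSpace.denseSeq (E n) p.1) (1 / ((p.2 : ℝ) + 1) / 2)) →
        ¬ Gd volume q τ (TP fun x => h p x * ph φ x) := fun p => by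
    by_cases hp : ∃ u ∈ ocube n,
        u ∈ ball (TopologicalSpace.denseSeq (E n) p.1) (1 / ((p.2 : ℝ) + 1) / 2)
    · by_cases hm : IsMeagre {φ : E n →ᵇ ℝ | Gd volume q τ (TP fun x => h p x * ph φ x)}
      · filter_upwards [hm] with φ hφ _ using hφ
      · obtain ⟨u, hu, huw⟩ := hp
        exact absurd (local_global (by linarith) hτ hu huw (hhone p)
          (main KP_cont KP_norm (hhc p).measurable (hh1 p) hq hm)) hnot
    · exact Eventually.of_forall fun φ h => absurd h hp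
  filter_upwards [eventually_countable_forall.2 key] with φ hφ U hU hne hgd
  obtain ⟨u, huU, huc⟩ := hne
  -- a point of the open cube
  obtain ⟨s, ⟨hs1, hs0⟩, hs2⟩ : ∃ s : ℝ, (s • u ∈ U ∧ 0 < s) ∧ s < 1 := by
    have hc : Tendsto (fun s : ℝ => s • u) (𝓝[<] 1) (𝓝 u) := by
      have : ContinuousAt (fun s : ℝ => s • u) 1 := by fun_prop
      have h2 := this.tendsto
      simp only [one_smul] at h2
      exact h2.mono_left nhdsWithin_le_nhds
    have h3 : ∀ᶠ s : ℝ in 𝓝[<] 1, s • u ∈ U := hc.eventually (hU.mem_nhds huU)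
    have h4 : ∀ᶠ s : ℝ in 𝓝[<] 1, 0 < s :=
      nhdsWithin_le_nhds (lt_mem_nhds (by norm_num : (0 : ℝ) < 1))
    exact ((h3.and h4).and self_mem_nhdsWithin).exists
  set u' := s • u with hu'
  have hu'o : u' ∈ ocube n := fun i => by
    have e : u' i = s * u i := rfl
    rw [e, abs_mul, abs_of_pos hs0]
    calc s * |u i| ≤ s * 1 := by gcongr; exact huc i
      _ < 1 := by linarith
  obtain ⟨ε, hε, hball⟩ := Metric.isOpen_iff.1 hU u' hs1
  obtain ⟨m, hm⟩ := exists_nat_one_div_lt (half_pos hε)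
  set r : ℝ := 1 / ((m : ℝ) + 1) with hr
  have hr' : 0 < r := hr0 m
  obtain ⟨i, hi⟩ := (TopologicalSpace.denseRange_denseSeq (E n)).exists_dist_lt u' (half_pos hr')
  have hsubU : ∀ x, x ∉ U → h (i, m) x = 0 := fun x hx => by
    apply hhzero (i, m)
    intro hxb
    apply hx
    apply hball
    rw [mem_ball] at hxb ⊢
    have h5 : dist x u' ≤ dist x (TopologicalSpace.denseSeq (E n) i) +
        dist u' (TopologicalSpace.denseSeq (E n) i) := by
      rw [dist_comm u']; exact dist_triangle _ _ _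
    have h6 : dist x (TopologicalSpace.denseSeq (E n) i) < r := hxb
    linarith
  have hfm : Measurable (U.indicator (ph φ)) := (ph_meas φ).indicator hU.measurableSet
  have hg := mult (μ := (volume : Measure (E n × ℝ))) (ρ := (volume : Measure (E n)))
    (ν := (volume : Measure (E n)).restrict (cube n)) (K := KP)
    KP_cont KP_norm (fun z : E n => ((z, 0) : E n × ℝ)) (by fun_prop)
    (fun z => by rw [Prod.norm_def]; simp)
    (fun x y z => by
      unfold KP
      rw [← Complex.exp_add]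
      congr 1
      simp only [Prod.fst_add, Prod.snd_add, inner_add_right]
      push_cast
      ring)
    (hkc (i, m)) (hki (i, m)) hq hτ (hkτ (i, m) τ) (h := h (i, m))
    (fun x => by
      rw [hrep (i, m) x]
      refine integral_congr_ae (Eventually.of_forall fun z => ?_)
      show k (i, m) z * Complex.exp ((2 * Real.pi * inner ℝ x z : ℝ) * Complex.I) =
        k (i, m) z * KP x (z, 0)
      unfold KP
      simp)
    hfm (ph_ind_norm U φ) hgd
  have h7 : (fun x => h (i, m) x * U.indicator (ph φ) x) = fun x => h (i, m) x * ph φ x := by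
    funext x
    by_cases hx : x ∈ U
    · rw [indicator_of_mem hx]
    · rw [hsubU x hx, zero_mul, zero_mul]
  rw [h7] at hg
  refine hφ (i, m) ⟨u', hu'o, ?_⟩ hg
  rw [mem_ball]; exact hi

theorem Gd_mono {μ : Measure (E n × ℝ)} {q τ τ' : ℝ} (h : τ ≤ τ') {F : E n × ℝ → ℂ}
    (hF : Gd μ q τ F) : Gd μ q τ' F := by
  obtain ⟨C, hC⟩ := hF
  refine ⟨C, fun R hR => (hC R hR).trans ?_⟩
  gcongr

theorem Est_mono {q τ τ' : ℝ} (h : τ ≤ τ') (hE : Est n q τ) : Est n q τ' := by
  obtain ⟨C, hC⟩ := hE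
  refine ⟨C, fun f hf hf1 R hR => (hC f hf hf1 R hR).trans ?_⟩
  gcongr

theorem TP_bound {f : E n → ℂ} (hf1 : ∀ ξ, ‖f ξ‖ ≤ 1) (y : E n × ℝ) :
    ‖TP f y‖ ≤ (volume : Measure (E n)).real (cube n) := by
  have h1 : ‖TP f y‖ ≤ 1 * ((volume : Measure (E n)).restrict (cube n)).real univ := by
    refine norm_integral_le_of_norm_le_const (Eventually.of_forall fun x => ?_)
    rw [norm_mul]
    calc ‖f x‖ * ‖KP x y‖ ≤ 1 * 1 := by
          gcongr
          · exact hf1 x
          · exact KP_norm x y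
      _ = 1 := one_mul 1
  rw [one_mul, measureReal_restrict_apply_univ] at h1
  exact h1

/-- the trivial estimate -/
theorem Est_trivial {q : ℝ} (hq : 0 ≤ q) : Est n q (n + 1) := by
  set b : ℝ := (volume : Measure (E n)).real (cube n) with hb
  set v : ℝ≥0∞ := volume (closedBall (0 : E n × ℝ) 1) with hv
  have hvt : v ≠ ∞ := measure_closedBall_lt_top.ne
  set D : ℝ≥0∞ := ENNReal.ofReal (b ^ q) * v with hD
  have hDt : D ≠ ∞ := ENNReal.mul_ne_top ENNReal.ofReal_ne_top hvt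
  have hb0 : 0 ≤ b := measureReal_nonneg
  refine ⟨D.toNNReal, fun f hf hf1 R hR => ?_⟩
  rw [ENNReal.coe_toNNReal hDt]
  have hR0 : 0 ≤ R := by linarith
  have hball : volume (closedBall (0 : E n × ℝ) R) = ENNReal.ofReal (R ^ (n + 1)) * v := by
    rw [hv, Measure.addHaar_closedBall _ _ hR0, Measure.addHaar_closedBall _ _ zero_le_one]
    simp
  have hpw : (R : ℝ) ^ ((n : ℝ) + 1) = R ^ (n + 1) := by
    rw [← Nat.cast_add_one, Real.rpow_natCast]
  unfold J
  calc ∫⁻ y in closedBall (0 : E n × ℝ) R, ‖TP f y‖ₑ ^ q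
      ≤ ∫⁻ _y in closedBall (0 : E n × ℝ) R, ENNReal.ofReal (b ^ q) := by
        refine lintegral_mono fun y => ?_
        rw [← ENNReal.ofReal_rpow_of_nonneg hb0 hq]
        refine ENNReal.rpow_le_rpow ?_ hq
        rw [← ofReal_norm]
        exact ENNReal.ofReal_le_ofReal (TP_bound hf1 y)
    _ = D * ENNReal.ofReal (R ^ ((n : ℝ) + 1)) := by
        rw [setLIntegral_const, hball, hpw, hD]; ring

/-- no loss: the global norm -/
theorem Gd_zero {F : E n × ℝ → ℂ} (hF : Measurable F) {q : ℝ} {C : ℝ≥0∞}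
    (h : ∀ R : ℝ, 1 ≤ R → J volume q F R ≤ C) : ∫⁻ x, ‖F x‖ₑ ^ q ≤ C := by
  have h1 := (aecover_closedBall (μ := (volume : Measure (E n × ℝ))) (x := (0 : E n × ℝ))
    (tendsto_id (α := ℝ) (x := atTop))).lintegral_tendsto_of_countably_generated
    (hF.enorm.pow_const q).aemeasurable
  exact le_of_tendsto h1 (by
    filter_upwards [eventually_ge_atTop (1 : ℝ)] with R hR using h R hR)

end Pool.Agent.Helper184.PH
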